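import Pool.Agent.H77.OF.Core2
import Pool.Agent.H77.OL.Engine2

/-!
The engine for functions.
-/

namespace Pool.Agent.H77.OF

open Pool.Agent.H77.RT Pool.Agent.H77.OL Turing

section raw

variable {K : Type} [DecidableEq K] {Γ : K → Type} {Λ : Type} {σ : Type}

/-- the machine computes `f` on the word `w` -/
structure RawComp {b : ℕ} (M : Λ → TM2.Stmt Γ Λ σ) (l₀ : Λ) (v₀ : σ) (inp out : K)
    (rd : Fin b → Γ inp) (wr : Γ out → ℤ) (f : ℝ → ℝ) (E : ℝ) (T D : ℕ → ℕ) (w : List (Fin b)) :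
    Prop where
  reads : ∀ t t' : ℕ, t ≤ t' → ∀ C C' : TM2.Cfg Γ Λ σ,
    cfg M l₀ v₀ (Function.update (fun _ => []) inp (w.map rd)) t = some C →
    cfg M l₀ v₀ (Function.update (fun _ => []) inp (w.map rd)) t' = some C' →
    C'.stk inp <:+ C.stk inp
  writes : ∀ t t' : ℕ, t ≤ t' → ∀ C C' : TM2.Cfg Γ Λ σ,
    cfg M l₀ v₀ (Function.update (fun _ => []) inp (w.map rd)) t = some C →
    cfg M l₀ v₀ (Function.update (fun _ => []) inp (w.map rd)) t' = some C' →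
    C.stk out <:+ C'.stk out
  works : ∀ n, n + D n ≤ w.length → ∃ t ≤ T n, ∃ C : TM2.Cfg Γ Λ σ,
    cfg M l₀ v₀ (Function.update (fun _ => []) inp (w.map rd)) t = some C ∧
    w.length ≤ (C.stk inp).length + (n + D n) ∧ n ≤ (C.stk out).length ∧
    |f (vl b (w.map fun a : Fin b => ((a : ℕ) : ℤ))) - vl b (((C.stk out).reverse.take n).map wr)| ≤
      E / (b : ℝ) ^ n

theorem vl_word {b : ℕ} (hb : 0 < b) {N : ℕ} (w : Fin N → Fin b) :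
    vl b ((List.ofFn w).map fun a : Fin b => ((a : ℕ) : ℤ)) = val b w := by
  unfold val
  apply vl_eq hb
  · simp
  · intro i hi
    unfold dg
    rw [dif_pos hi]
    simp [List.getD_eq_getElem?_getD, hi]

theorem vl_digs {b : ℕ} (hb : 0 < b) {A : Type} (wr : A → ℤ) (l : List A) {n : ℕ} (hn : n ≤ l.length) :
    vl b ((l.reverse.take n).map wr) = (hor b (digs wr l) n : ℝ) / (b : ℝ) ^ n := by
  apply vl_eq hb
  · simp; exact hn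
  · intro i hi
    unfold digs
    rw [List.getD_eq_getElem?_getD, List.getElem?_map, List.getElem?_take, if_pos hi]

variable [Fintype Λ]

theorem fine_of_comp {b : ℕ} (hb : 0 < b) {M : Λ → TM2.Stmt Γ Λ σ} {l₀ : Λ} {v₀ : σ} {inp out : K}
    (ne : out ≠ inp) {rd : Fin b → Γ inp} {wr : Γ out → ℤ} {f : ℝ → ℝ} {E : ℝ} {T D : ℕ → ℕ} {N : ℕ}
    {w : Fin N → Fin b} (h : RawComp M l₀ v₀ inp out rd wr f E T D (List.ofFn w)) {nb Δ Tmax : ℕ}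
    (hT : ∀ n ≤ nb, T n ≤ Tmax) (hD : ∀ n ≤ nb, D n < Δ) (hN : nb + Δ ≤ N) :
    Fine (toSys M l₀ v₀ inp out ne rd wr) (f (val b w)) E nb Δ Tmax w := by
  classical
  have hlen : (List.ofFn w).length = N := List.length_ofFn
  have h1 : ∀ n, ∃ t, n ≤ nb → t ≤ Tmax ∧ ∃ C : TM2.Cfg Γ Λ σ,
      cfg M l₀ v₀ (Function.update (fun _ => []) inp ((List.ofFn w).map rd)) t = some C ∧
      N < (C.stk inp).length + (n + Δ) ∧ n ≤ (C.stk out).length ∧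
      |f (vl b ((List.ofFn w).map fun a : Fin b => ((a : ℕ) : ℤ))) -
        vl b (((C.stk out).reverse.take n).map wr)| ≤ E / (b : ℝ) ^ n := by
    intro n
    by_cases hn : n ≤ nb
    · have d1 := hD n hn
      obtain ⟨t, ht, C, hC, c1, c2, c3⟩ := h.works n (by rw [hlen]; omega)
      rw [hlen] at c1
      exact ⟨t, fun _ => ⟨ht.trans (hT n hn), C, hC, by omega, c2, c3⟩⟩
    · exact ⟨0, fun h => absurd h hn⟩
  choose t ht using h1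
  obtain ⟨n₀, hn₀, hmax⟩ := Finset.exists_max_image (Finset.range (nb + 1)) t ⟨0, by simp⟩
  have hn₀' : n₀ ≤ nb := by simpa [Nat.lt_succ_iff] using hn₀
  obtain ⟨hT0, C₀, hC₀, -⟩ := ht n₀ hn₀'
  refine ⟨t n₀, hT0, ⟨?_, ?_⟩, ?_⟩
  · intro s s' hs hs'
    obtain ⟨C', hC'⟩ := cfg_some_of_le M l₀ v₀ hs' hC₀
    obtain ⟨C, hC⟩ := cfg_some_of_le M l₀ v₀ hs hC'
    rw [(toSys_run M l₀ v₀ inp out ne rd wr w s C hC).2,
      (toSys_run M l₀ v₀ inp out ne rd wr w s' C' hC').2]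
    exact h.reads s s' hs C C' hC hC'
  · intro s s' hs hs'
    obtain ⟨C', hC'⟩ := cfg_some_of_le M l₀ v₀ hs' hC₀
    obtain ⟨C, hC⟩ := cfg_some_of_le M l₀ v₀ hs hC'
    rw [(toSys_run M l₀ v₀ inp out ne rd wr w s C hC).2,
      (toSys_run M l₀ v₀ inp out ne rd wr w s' C' hC').2]
    exact h.writes s s' hs C C' hC hC'
  · intro n hn
    obtain ⟨-, C, hC, c1, c2, c3⟩ := ht n hn
    have hS := (toSys_run M l₀ v₀ inp out ne rd wr w (t n) C hC).2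
    refine ⟨t n, hmax n (by simpa [Nat.lt_succ_iff] using hn), ?_, ?_, ?_⟩
    · unfold Sys.h; rw [hS]; exact c1
    · unfold Sys.h; rw [hS]; exact c2
    · rw [hS]
      show |_ - (hor b (digs wr (C.stk out)) n : ℝ) / (b : ℝ) ^ n| ≤ _
      rw [← vl_digs hb wr _ c2, ← vl_word hb]
      exact c3

end raw

theorem exists_C1' {b : ℕ} (hb : 2 ≤ b) {α : ℝ} (hα : α ≠ 0) (E : ℝ) :
    ∃ C₁ : ℕ, 2 * E + 1 ≤ (b : ℝ) ^ C₁ ∧ 4 * E ≤ |α| * (b : ℝ) ^ C₁ := by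
  have hb1 : (1 : ℝ) < b := by exact_mod_cast (by omega : 1 < b)
  obtain ⟨n, hn⟩ := pow_unbounded_of_one_lt (max (2 * E + 1) (4 * E / |α|)) hb1
  refine ⟨n, (le_max_left _ _).trans hn.le, ?_⟩
  have h1 := (le_max_right (2 * E + 1) (4 * E / |α|)).trans hn.le
  have h2 : 0 < |α| := abs_pos.2 hα
  rw [div_le_iff₀ h2] at h1
  linarith

theorem engine {K : Type} [Fintype K] [DecidableEq K] {Γ : K → Type} [∀ k, Fintype (Γ k)] {Λ : Type}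
    [Fintype Λ] {σ : Type} [Fintype σ] {b : ℕ} (hb : 2 ≤ b) {α : ℝ} (hα : ¬ Liouville α)
    (hirr : Irrational α) (M : Λ → TM2.Stmt Γ Λ σ) (l₀ : Λ) (v₀ : σ) {inp out : K}
    (ne : out ≠ inp) (rd : Fin b → Γ inp) (wr : Γ out → ℤ) (E : ℝ) :
    ∃ A : ℕ, 0 < A ∧ ∀ (f : ℝ → ℝ) (T D : ℕ → ℕ) (N i₀ L a₀ : ℕ) (u : ℕ → Fin b) (η : ℝ),
      (∀ n ≤ a₀ + 2 * 2 ^ (i₀ + L), A * T n < L * 2 ^ (i₀ + L)) →
      (∀ n ≤ a₀ + 2 * 2 ^ (i₀ + L), A * (D n + 2) ≤ 2 ^ i₀) →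
      a₀ + 4 * 2 ^ (i₀ + L) ≤ N → η ≤ |α| / 2 → η ≤ 1 / (b : ℝ) ^ (2 * 2 ^ (i₀ + L)) →
      (∀ w w' : Fin N → Fin b, Pre a₀ u w → Pre a₀ u w' →
        |f (val b w) - f (val b w') - α * (val b w - val b w')| ≤ η * |val b w - val b w'|) →
      ∀ W : Finset (Fin N → Fin b), (∀ w ∈ W, Pre a₀ u w) →
      (∀ w ∈ W, RawComp M l₀ v₀ inp out rd wr f E T D (List.ofFn w)) →
      W.card * b ^ (2 ^ i₀ / A) ≤ N ^ A * b ^ (N - a₀) := by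
  classical
  obtain ⟨d, hL⟩ := dio_of_not_liouville hb hα hirr
  have hα0 : α ≠ 0 := hirr.ne_zero
  obtain ⟨C₁, hC₁, hC₁'⟩ := exists_C1' hb hα0 E
  set S := toSys M l₀ v₀ inp out ne rd wr with hS
  obtain ⟨v, hv⟩ : ∃ v, v = 4 * (d + 1) := ⟨_, rfl⟩
  have hv' : 4 * (d + 1) ≤ 2 ^ v := pow_le_of_self hv.ge
  obtain ⟨γ, hγ⟩ : ∃ γ, γ = ∏ k, (Fintype.card (Γ k) + 1) := ⟨_, rfl⟩
  have hγ' : ∏ k, (Fintype.card (Γ k) + 1) ≤ b ^ (2 ^ γ) := by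
    calc ∏ k, (Fintype.card (Γ k) + 1) ≤ 2 ^ γ := pow_le_of_self hγ.ge
      _ ≤ 2 ^ (2 ^ γ) := Nat.pow_le_pow_right (by norm_num) (pow_le_of_self le_rfl)
      _ ≤ b ^ (2 ^ γ) := Nat.pow_le_pow_left hb _
  obtain ⟨X, hX⟩ : ∃ X, X = (2 * S.D + C₁) * (d + 1) + C₁ + d := ⟨_, rfl⟩
  obtain ⟨s, hs⟩ : ∃ s, s = Fintype.card (Option Λ × σ) * b ^ (2 ^ γ * S.D) := ⟨_, rfl⟩
  have hs' : Fintype.card (Option Λ × σ) * b ^ (2 ^ γ * S.D) ≤ 2 ^ s := pow_le_of_self hs.ge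
  obtain ⟨Y, hY⟩ : ∃ Y, Y = s + (S.P + 2 + 2) * (3 * Fintype.card K) + 1 + 2 + 1 := ⟨_, rfl⟩
  obtain ⟨U, hU⟩ : ∃ U, U = 2 * 2 ^ (v + 1 + γ) * (Fintype.card K * S.P) := ⟨_, rfl⟩
  obtain ⟨A, hAU, hAv, hAX, hAY⟩ := exists_big U (2 ^ (v + 1 + γ)) (2 * X + 4) Y
  have hApos : 0 < A := lt_of_lt_of_le (by positivity) hAv
  refine ⟨A, hApos, ?_⟩
  intro f T D N i₀ L a₀ u η hT hD hN hηα hη hF W hWp hW
  obtain ⟨Tmax, hTmax⟩ : ∃ Tmax, Tmax = (Finset.range (a₀ + 2 * 2 ^ (i₀ + L) + 1)).sup T := ⟨_, rfl⟩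
  obtain ⟨Dmax, hDmax⟩ : ∃ Dmax, Dmax = (Finset.range (a₀ + 2 * 2 ^ (i₀ + L) + 1)).sup D := ⟨_, rfl⟩
  have hTle : ∀ n ≤ a₀ + 2 * 2 ^ (i₀ + L), T n ≤ Tmax := by
    intro n hn
    rw [hTmax]
    exact Finset.le_sup (f := T) (Finset.mem_range.2 (by omega))
  have hDle : ∀ n ≤ a₀ + 2 * 2 ^ (i₀ + L), D n < Dmax + 1 := by
    intro n hn
    rw [hDmax, Nat.lt_succ_iff]
    exact Finset.le_sup (f := D) (Finset.mem_range.2 (by omega))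
  have hTmax' : A * Tmax < L * 2 ^ (i₀ + L) := by
    obtain ⟨n, hn, hn'⟩ := Finset.exists_mem_eq_sup (Finset.range (a₀ + 2 * 2 ^ (i₀ + L) + 1))
      ⟨0, by simp⟩ T
    rw [hTmax, hn']
    exact hT n (by simpa [Nat.lt_succ_iff] using hn)
  have hDmax' : A * (Dmax + 2) ≤ 2 ^ i₀ := by
    obtain ⟨n, hn, hn'⟩ := Finset.exists_mem_eq_sup (Finset.range (a₀ + 2 * 2 ^ (i₀ + L) + 1))
      ⟨0, by simp⟩ D
    rw [hDmax, hn']
    exact hD n (by simpa [Nat.lt_succ_iff] using hn)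
  have hAi : A ≤ 2 ^ i₀ := le_trans (Nat.le_mul_of_pos_right _ (Nat.succ_pos _)) hDmax'
  have hi₀ : v + 1 + γ ≤ i₀ := by
    have h1 : 2 ^ (v + 1 + γ) ≤ 2 ^ i₀ := hAv.trans hAi
    exact (Nat.pow_le_pow_iff_right (by norm_num)).1 h1
  have hJ : 2 ^ i₀ ≤ 2 ^ (i₀ + L) := Nat.pow_le_pow_right (by norm_num) (by omega)
  have hDA : Dmax + 1 ≤ 2 ^ i₀ :=
    le_trans (le_trans (Nat.le_succ _) (Nat.le_mul_of_pos_left _ hApos)) hDmax'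
  have hcore := core S hb hα0 hL hC₁ hC₁' (v := v) (γ := γ) hv' hγ' (N := N) (i₀ := i₀) (L := L)
    (Δ := Dmax + 1) (Tmax := Tmax) (a₀ := a₀) (by omega) hi₀ (by
      rw [show (Dmax + 1 + (2 * S.D + C₁) * (d + 1) + C₁ + d + 1) = Dmax + 2 + X by rw [hX]; ring]
      have h1 : (2 * X + 4) * (Dmax + 2) ≤ A * (Dmax + 2) := Nat.mul_le_mul_right _ hAX
      clear hU hY hX hs
      nlinarith) (by
      have h1 : U * Tmax ≤ A * Tmax := Nat.mul_le_mul_right _ hAU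
      rw [hU] at h1
      calc _ = 2 * 2 ^ (v + 1 + γ) * (Fintype.card K * S.P) * Tmax := by ring
        _ ≤ A * Tmax := h1
        _ < _ := hTmax') (F := fun w => f (val b w)) (u := u) hηα hη hF W hWp (by
      intro w hw
      exact fine_of_comp (by omega) ne (hW w hw) hTle hDle (by omega))
  have hTT : Tmax < L * 2 ^ (i₀ + L) := lt_of_le_of_lt (Nat.le_mul_of_pos_left _ hApos) hTmax'
  have hpoly := poly_bound (P := S.P) (cK := Fintype.card K) (N := N) (by omega) hTT hs'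
  have hN1 : 1 ≤ N := by
    have : 0 < 2 ^ (i₀ + L) := by positivity
    omega
  have h1 : W.card ≤ N ^ A * b ^ (N - a₀ - 2 ^ (i₀ - (v + 1))) :=
    hcore.trans (Nat.mul_le_mul_right _ (hpoly.trans (Nat.pow_le_pow_right hN1
      (hY.symm.le.trans hAY))))
  have h2 : 2 ^ i₀ / A ≤ 2 ^ (i₀ - (v + 1)) := by
    apply Nat.div_le_of_le_mul
    have e1 : 2 ^ i₀ = 2 ^ (v + 1) * 2 ^ (i₀ - (v + 1)) := by rw [← pow_add]; congr 1; omega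
    have e2 : 2 ^ (v + 1) ≤ A :=
      le_trans (Nat.pow_le_pow_right (by norm_num) (Nat.le_add_right _ _)) hAv
    calc 2 ^ i₀ = 2 ^ (v + 1) * 2 ^ (i₀ - (v + 1)) := e1
      _ ≤ A * 2 ^ (i₀ - (v + 1)) := Nat.mul_le_mul_right _ e2
  have h3 : 2 ^ (i₀ - (v + 1)) ≤ N - a₀ := by
    have : 2 ^ (i₀ - (v + 1)) ≤ 2 ^ i₀ := Nat.pow_le_pow_right (by norm_num) (by omega)
    omega
  calc W.card * b ^ (2 ^ i₀ / A) ≤
        N ^ A * b ^ (N - a₀ - 2 ^ (i₀ - (v + 1))) * b ^ (2 ^ (i₀ - (v + 1))) :=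
        Nat.mul_le_mul h1 (Nat.pow_le_pow_right (by omega) h2)
    _ = N ^ A * b ^ (N - a₀) := by
        rw [mul_assoc, ← pow_add, Nat.sub_add_cancel h3]

end Pool.Agent.H77.OF
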