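import Pool.Agent.H77.OF.Local2
import Mathlib.Analysis.Calculus.MeanValue
import Mathlib.NumberTheory.Transcendental.Liouville.Basic

/-!
From the local theorem to functions with a Hoelder continuous derivative on `[0, 1]`.
-/

namespace Pool.Agent.H77.OF

open Pool.Agent.H77.RT Pool.Agent.H77.OL Turing Filter Asymptotics Set

/-- the difference quotients near `y` are close to the derivative at `y` -/
theorem close_of_deriv {f f' : ℝ → ℝ} {C r y δ : ℝ} (hr : 0 < r)
    (hf : ∀ x ∈ Icc (0 : ℝ) 1, |x - y| ≤ δ → HasDerivWithinAt f (f' x) (Icc 0 1) x)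
    (hH : ∀ x ∈ Icc (0 : ℝ) 1, |x - y| ≤ δ → |f' x - f' y| ≤ C * |x - y| ^ r) :
    ∀ ρ x x' : ℝ, ρ ≤ δ → x ∈ Icc (0 : ℝ) 1 → x' ∈ Icc (0 : ℝ) 1 → |x - y| ≤ ρ →
      |x' - y| ≤ ρ → |f x - f x' - f' y * (x - x')| ≤ |C| * ρ ^ r * |x - x'| := by
  intro ρ x x' hρ hx hx' h h'
  have hρ0 : 0 ≤ ρ := (abs_nonneg _).trans h
  obtain ⟨s, hs⟩ : ∃ s, s = Icc (0 : ℝ) 1 ∩ Icc (y - ρ) (y + ρ) := ⟨_, rfl⟩
  have mem : ∀ z, z ∈ s ↔ z ∈ Icc (0 : ℝ) 1 ∧ |z - y| ≤ ρ := by
    intro z
    rw [hs, mem_inter_iff, abs_le, mem_Icc, mem_Icc]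
    constructor
    · rintro ⟨h1, h2, h3⟩; exact ⟨h1, by linarith, by linarith⟩
    · rintro ⟨h1, h2, h3⟩; exact ⟨h1, by linarith, by linarith⟩
  have hconv : Convex ℝ s := by
    rw [hs]; exact (convex_Icc 0 1).inter (convex_Icc _ _)
  have key := Convex.norm_image_sub_le_of_norm_hasDerivWithin_le (𝕜 := ℝ)
    (f := fun z => f z - f' y * z) (f' := fun z => f' z - f' y) (C := |C| * ρ ^ r) (s := s)
    (x := x') (y := x) (fun z hz => by
      have h1 := (hf z ((mem z).1 hz).1 (((mem z).1 hz).2.trans hρ)).mono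
        (show s ⊆ Icc 0 1 by rw [hs]; exact inter_subset_left)
      have h2 := ((hasDerivAt_id z).const_mul (f' y)).hasDerivWithinAt (s := s)
      have h3 := h1.sub h2
      simp only [mul_one] at h3
      exact h3) (fun z hz => by
      rw [Real.norm_eq_abs]
      refine (hH z ((mem z).1 hz).1 (((mem z).1 hz).2.trans hρ)).trans ?_
      have h1 : |z - y| ^ r ≤ ρ ^ r := Real.rpow_le_rpow (abs_nonneg _) ((mem z).1 hz).2 hr.le
      calc C * |z - y| ^ r ≤ |C| * |z - y| ^ r :=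
            mul_le_mul_of_nonneg_right (le_abs_self C) (by positivity)
        _ ≤ |C| * ρ ^ r := mul_le_mul_of_nonneg_left h1 (abs_nonneg C)) hconv
    ((mem x').2 ⟨hx', h'⟩) ((mem x).2 ⟨hx, h⟩)
  simp only [Real.norm_eq_abs] at key
  refine le_trans (le_of_eq ?_) key
  congr 1
  ring

/-- an algebraic irrational number between two given numbers -/
theorem exists_irrational_algebraic_btwn {a c : ℝ} (h : a < c) :
    ∃ z, a < z ∧ z < c ∧ Irrational z ∧ IsAlgebraic ℚ z := by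
  obtain ⟨q, hq1, hq2⟩ := exists_rat_btwn h
  obtain ⟨n, hn⟩ := exists_nat_gt (Real.sqrt 2 / (c - q))
  have hcq : 0 < c - q := by linarith
  have hn0 : (0 : ℝ) < n := lt_of_le_of_lt (by positivity) hn
  rw [div_lt_iff₀ hcq] at hn
  have hn1 : n ≠ 0 := by rintro rfl; simp at hn0
  refine ⟨q + Real.sqrt 2 / n, ?_, ?_, ?_, ?_⟩
  · have : 0 < Real.sqrt 2 / n := by positivity
    linarith
  · have : Real.sqrt 2 / n < c - q := by rw [div_lt_iff₀ hn0]; linarith
    linarith
  · have h1 : Irrational (Real.sqrt 2 / n) := irrational_sqrt_two.div_natCast hn1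
    exact h1.ratCast_add q
  · have h2 : IsAlgebraic ℚ (Real.sqrt 2) := by
      refine ⟨Polynomial.X ^ 2 - Polynomial.C 2, ?_, ?_⟩
      · exact Polynomial.X_pow_sub_C_ne_zero (by norm_num) 2
      · simp
    have h3 : IsAlgebraic ℚ (n : ℝ) := by
      have := isAlgebraic_algebraMap (R := ℚ) (A := ℝ) (n : ℚ)
      simpa using this
    have h4 : IsAlgebraic ℚ (q : ℝ) := by
      have := isAlgebraic_algebraMap (R := ℚ) (A := ℝ) q
      simpa using this
    rw [div_eq_mul_inv]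
    exact h4.add (h2.mul h3.inv)

theorem not_liouville_of_algebraic {α : ℝ} (h : IsAlgebraic ℚ α) : ¬ Liouville α := fun hL =>
  hL.transcendental ((IsFractionRing.isAlgebraic_iff ℤ ℚ ℝ).2 h)

/-- a function whose Hoelder continuous derivative only takes rational or Liouville values is affine -/
theorem affine_of_values {f f' : ℝ → ℝ} {C r : ℝ} (hr : 0 < r)
    (hf : ∀ x ∈ Icc (0 : ℝ) 1, HasDerivWithinAt f (f' x) (Icc 0 1) x)
    (hH : ∀ x ∈ Icc (0 : ℝ) 1, ∀ y ∈ Icc (0 : ℝ) 1, |f' x - f' y| ≤ C * |x - y| ^ r)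
    (hval : ∀ y, 0 ≤ y → y < 1 → Irrational (f' y) → Liouville (f' y)) :
    ∀ y ∈ Icc (0 : ℝ) 1, f y = f' 0 * y + f 0 := by
  have hcont : ContinuousOn f' (Icc (0 : ℝ) 1) := by
    intro x hx
    rw [Metric.continuousWithinAt_iff]
    intro ε hε
    have hlim : Tendsto (fun t : ℝ => |C| * |t - x| ^ r) (nhds x) (nhds 0) := by
      have h1 : Tendsto (fun t : ℝ => |t - x|) (nhds x) (nhds 0) := by
        have : Tendsto (fun t : ℝ => |t - x|) (nhds x) (nhds |x - x|) :=
          ((continuous_id.sub continuous_const).abs).tendsto x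
        simpa using this
      have h2 := h1.rpow_const (p := r) (Or.inr hr.le)
      rw [Real.zero_rpow hr.ne'] at h2
      simpa using h2.const_mul |C|
    have h3 := hlim.eventually (gt_mem_nhds hε)
    obtain ⟨δ, hδ, h4⟩ := Metric.eventually_nhds_iff.1 h3
    refine ⟨δ, hδ, fun {t} ht hd => ?_⟩
    have h5 := h4 hd
    rw [Real.dist_eq]
    refine lt_of_le_of_lt (hH t ht x hx) (lt_of_le_of_lt ?_ h5)
    exact mul_le_mul_of_nonneg_right (le_abs_self C) (by positivity)
  -- the derivative is constant on `[0, 1)`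
  have hconst : ∀ y, 0 ≤ y → y < 1 → f' y = f' 0 := by
    intro y h0 h1
    by_contra hne
    have hsub : Icc 0 y ⊆ Icc (0 : ℝ) 1 := Icc_subset_Icc_right h1.le
    have hc := hcont.mono hsub
    have hmain : ∀ z, Irrational z → IsAlgebraic ℚ z → z ∉ f' '' Icc 0 y := by
      rintro z hz1 hz2 ⟨t, ht, rfl⟩
      exact not_liouville_of_algebraic hz2 (hval t ht.1 (lt_of_le_of_lt ht.2 h1) hz1)
    rcases lt_or_gt_of_ne hne with h | h
    · obtain ⟨z, z1, z2, z3, z4⟩ := exists_irrational_algebraic_btwn h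
      exact hmain z z3 z4 (intermediate_value_Icc' h0 hc ⟨z1.le, z2.le⟩)
    · obtain ⟨z, z1, z2, z3, z4⟩ := exists_irrational_algebraic_btwn h
      exact hmain z z3 z4 (intermediate_value_Icc h0 hc ⟨z1.le, z2.le⟩)
  have h1' : f' 1 = f' 0 := by
    by_contra hne
    have hmain : ∀ z, Irrational z → IsAlgebraic ℚ z → z ∉ f' '' Ico 0 1 := by
      rintro z hz1 hz2 ⟨t, ht, rfl⟩
      exact not_liouville_of_algebraic hz2 (hval t ht.1 ht.2 hz1)
    rcases lt_or_gt_of_ne hne with h | h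
    · obtain ⟨z, z1, z2, z3, z4⟩ := exists_irrational_algebraic_btwn h
      obtain ⟨t, ht, he⟩ := intermediate_value_Icc' (zero_le_one) hcont ⟨z1.le, z2.le⟩
      have : t < 1 := lt_of_le_of_ne ht.2 (by rintro rfl; linarith)
      exact hmain z z3 z4 ⟨t, ⟨ht.1, this⟩, he⟩
    · obtain ⟨z, z1, z2, z3, z4⟩ := exists_irrational_algebraic_btwn h
      obtain ⟨t, ht, he⟩ := intermediate_value_Icc (zero_le_one) hcont ⟨z1.le, z2.le⟩
      have : t < 1 := lt_of_le_of_ne ht.2 (by rintro rfl; linarith)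
      exact hmain z z3 z4 ⟨t, ⟨ht.1, this⟩, he⟩
  have hall : ∀ y ∈ Icc (0 : ℝ) 1, f' y = f' 0 := by
    intro y hy
    rcases lt_or_eq_of_le hy.2 with h | h
    · exact hconst y hy.1 h
    · rw [h, h1']
  intro y hy
  have key := Convex.norm_image_sub_le_of_norm_hasDerivWithin_le (𝕜 := ℝ)
    (f := fun z => f z - f' 0 * z) (f' := fun z => f' z - f' 0) (C := 0) (s := Icc (0 : ℝ) 1)
    (x := 0) (y := y) (fun z hz => by
      have h2 := ((hasDerivAt_id z).const_mul (f' 0)).hasDerivWithinAt (s := Icc (0 : ℝ) 1)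
      have h3 := (hf z hz).sub h2
      simp only [mul_one] at h3
      exact h3) (fun z hz => by
      rw [hall z hz]; simp) (convex_Icc 0 1) ⟨le_rfl, zero_le_one⟩ hy
  simp only [zero_mul, norm_le_zero_iff, mul_zero, sub_zero] at key
  linarith

end Pool.Agent.H77.OF
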