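import Pool.Agent.H77.OF.Engine3
import Pool.Agent.H77.OL.Asym
import Pool.Agent.H77.OL.Pos
import Pool.Agent.H77.RT.Base

/-!
The local theorem: a function computed fast on-line has only rational or Liouville derivatives.
-/

namespace Pool.Agent.H77.OF

open Pool.Agent.H77.RT Pool.Agent.H77.OL Turing Filter Asymptotics

/-- the parameters -/
theorem asyJ {A B : ℕ} (hA : 0 < A) (hB : 4 ≤ B) (e : ℕ) {T D : ℕ → ℕ}
    (hD : (fun n => (D n : ℝ)) =o[atTop] (fun n => (n : ℝ)))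
    (hT : (fun n => (T n : ℝ)) =o[atTop] fun n => (n : ℝ) * Real.log ((n : ℝ) / ((D n : ℝ) + 1))) :
    ∀ᶠ J : ℕ in atTop, ∃ i₀ L : ℕ, J = i₀ + L ∧ A * T (B * 2 ^ J) < L * 2 ^ (i₀ + L) ∧
      A * (D (B * 2 ^ J) + 2) ≤ 2 ^ i₀ ∧
      (A : ℝ) * (A * (J + e) + 1) ≤ (2 : ℝ) ^ i₀ := by
  have hAR : (0 : ℝ) < A := by exact_mod_cast hA
  have hA1 : (1 : ℝ) ≤ A := by exact_mod_cast hA
  have hBR : (4 : ℝ) ≤ B := by exact_mod_cast hB
  have hB0 : (0 : ℝ) < B := by linarith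
  have hNt : Tendsto (fun J : ℕ => B * 2 ^ J) atTop atTop := by
    apply tendsto_atTop_mono (fun J => ?_) tendsto_id
    calc J ≤ 2 ^ J := (Nat.lt_two_pow_self).le
      _ ≤ B * 2 ^ J := Nat.le_mul_of_pos_left _ (by omega)
  obtain ⟨η, hη⟩ : ∃ η : ℝ, η = 1 / (2 * A * B) := ⟨_, rfl⟩
  have hη0 : 0 < η := by rw [hη]; positivity
  have hρ := tendsto_ratio hD
  have hlogo := (isLittleO_log_rpow_atTop (r := 1 / 2) (by norm_num)).comp_tendsto
    (tendsto_natCast_atTop_atTop (R := ℝ))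
  have hcast := tendsto_natCast_atTop_atTop (R := ℝ)
  have hhalf := (tendsto_rpow_atTop (y := (1 : ℝ) / 2) (by norm_num)).comp hcast
  have hρhalf := (tendsto_rpow_atTop (y := (1 : ℝ) / 2) (by norm_num)).comp hρ
  have hc0 : (0 : ℝ) < 1 / (8 * A * A * B) := by positivity
  filter_upwards [hNt.eventually (hT.bound hη0), hNt.eventually (hρ.eventually_ge_atTop 2),
    hNt.eventually (hρhalf.eventually_ge_atTop (4 * A * B : ℝ)), hNt.eventually (hlogo.bound hc0),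
    hNt.eventually (hhalf.eventually_ge_atTop (4 * B * (A * (A * e + 1)) : ℝ)),
    hNt.eventually (hhalf.eventually_gt_atTop (2 * B : ℝ))]
    with J n1 n2 n3 n4 n5 n6
  simp only [Function.comp_apply] at n3 n4 n5 n6
  obtain ⟨N, hN⟩ : ∃ N, N = B * 2 ^ J := ⟨_, rfl⟩
  rw [← hN] at n1 n2 n3 n4 n5 n6 ⊢
  have hNR : (N : ℝ) = B * 2 ^ J := by rw [hN]; push_cast; rfl
  have h2J : (1 : ℝ) ≤ 2 ^ J := one_le_pow₀ (by norm_num)
  have hN1 : (1 : ℝ) ≤ N := by rw [hNR]; nlinarith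
  have hN0 : (0 : ℝ) < N := by linarith
  obtain ⟨ρ, hρdef⟩ : ∃ ρ : ℝ, ρ = (N : ℝ) / ((D N : ℝ) + 1) := ⟨_, rfl⟩
  rw [← hρdef] at n1 n2 n3
  have hρ0 : 0 < ρ := by linarith
  have hρN : ρ ≤ N := by
    rw [hρdef]
    apply div_le_self hN0.le
    have : (0 : ℝ) ≤ D N := by positivity
    linarith
  have hlog : 0 < Real.log ρ := Real.log_pos (by linarith)
  rw [Real.norm_of_nonneg (by positivity), Real.norm_of_nonneg (by positivity)] at n1
  obtain ⟨L, hL⟩ : ∃ L, L = ⌊1 / 2 * Real.log ρ⌋₊ + 1 := ⟨_, rfl⟩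
  have hL1 : 1 / 2 * Real.log ρ < L := by rw [hL]; push_cast; exact Nat.lt_floor_add_one _
  have hL2 : (L : ℝ) ≤ 1 / 2 * Real.log ρ + 1 := by
    rw [hL]; push_cast
    have := Nat.floor_le (show 0 ≤ 1 / 2 * Real.log ρ by positivity)
    linarith
  have hpL : (2 : ℝ) ^ L ≤ 2 * ρ ^ ((1 : ℝ) / 2) := by
    calc (2 : ℝ) ^ L = (2 : ℝ) ^ (L : ℝ) := (Real.rpow_natCast _ _).symm
      _ ≤ (2 : ℝ) ^ (1 / 2 * Real.log ρ + 1) :=
          Real.rpow_le_rpow_of_exponent_le (by norm_num) hL2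
      _ = 2 * (2 : ℝ) ^ (1 / 2 * Real.log ρ) := by
          rw [Real.rpow_add (by norm_num), Real.rpow_one, mul_comm]
      _ ≤ 2 * ρ ^ ((1 : ℝ) / 2) :=
          mul_le_mul_of_nonneg_left (two_rpow_le (by norm_num) (by linarith)) (by norm_num)
  have hρh : ρ ^ ((1 : ℝ) / 2) ≤ (N : ℝ) ^ ((1 : ℝ) / 2) :=
    Real.rpow_le_rpow hρ0.le hρN (by norm_num)
  have hsq : (N : ℝ) ^ ((1 : ℝ) / 2) * (N : ℝ) ^ ((1 : ℝ) / 2) = N := by
    rw [← Real.rpow_add hN0]; norm_num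
  have hρsq : ρ ^ ((1 : ℝ) / 2) * ρ ^ ((1 : ℝ) / 2) = ρ := by
    rw [← Real.rpow_add hρ0]; norm_num
  set z := (N : ℝ) ^ ((1 : ℝ) / 2) with hz
  set ζ := ρ ^ ((1 : ℝ) / 2) with hζ
  have hζ0 : 0 < ζ := by positivity
  have hz0 : 0 < z := by positivity
  have hLJ : L ≤ J := by
    by_contra hcon
    push Not at hcon
    have h2 : (2 : ℝ) ^ J ≤ 2 ^ L := pow_le_pow_right₀ (by norm_num) hcon.le
    have h3 : (N : ℝ) ≤ B * (2 * z) := by
      rw [hNR]
      apply mul_le_mul_of_nonneg_left _ hB0.le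
      linarith
    rw [← hsq] at h3
    have h4 : z * z ≤ 2 * B * z := by linarith
    have h5 := le_of_mul_le_mul_right h4 hz0
    linarith
  obtain ⟨i₀, hi₀⟩ : ∃ i₀, J = i₀ + L := ⟨J - L, by omega⟩
  have e0 : (2 : ℝ) ^ J = 2 ^ i₀ * 2 ^ L := by rw [hi₀, pow_add]
  have e1 : (2 : ℝ) ^ J ≤ 2 ^ i₀ * (2 * ζ) := by
    rw [e0]; exact mul_le_mul_of_nonneg_left hpL (by positivity)
  refine ⟨i₀, L, hi₀, ?_, ?_, ?_⟩
  · have f1 : (A : ℝ) * T N ≤ 1 / 2 * Real.log ρ * 2 ^ J := by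
      calc (A : ℝ) * T N ≤ A * (η * (N * Real.log ρ)) := mul_le_mul_of_nonneg_left n1 hAR.le
        _ = 1 / 2 * Real.log ρ * 2 ^ J := by rw [hη, hNR]; field_simp
    have f2 : (A : ℝ) * T N < L * 2 ^ (i₀ + L) := by
      rw [← hi₀]
      exact lt_of_le_of_lt f1 (mul_lt_mul_of_pos_right hL1 (by positivity))
    exact_mod_cast f2
  · have e2 : (N : ℝ) = ρ * (D N + 1) := by rw [hρdef]; field_simp
    have hD0 : (0 : ℝ) ≤ D N := by positivity
    have e3 : ζ * (D N + 1) ≤ 2 * B * 2 ^ i₀ := by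
      have f1 : ζ * (ζ * (D N + 1)) ≤ ζ * (2 * B * 2 ^ i₀) := by
        calc ζ * (ζ * (D N + 1)) = ρ * (D N + 1) := by rw [← mul_assoc, hρsq]
          _ = B * 2 ^ J := by rw [← e2, hNR]
          _ ≤ B * (2 ^ i₀ * (2 * ζ)) := mul_le_mul_of_nonneg_left e1 hB0.le
          _ = _ := by ring
      exact le_of_mul_le_mul_left f1 hζ0
    have e4 : (4 * A * B : ℝ) * (D N + 1) ≤ 2 * B * 2 ^ i₀ :=
      (mul_le_mul_of_nonneg_right n3 (by positivity)).trans e3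
    have e5 : (2 * B : ℝ) * (2 * A * (D N + 1)) ≤ 2 * B * 2 ^ i₀ := by linarith
    have e6 : 2 * A * (D N + 1) ≤ (2 : ℝ) ^ i₀ := le_of_mul_le_mul_left e5 (by positivity)
    have e7 : (A : ℝ) * (D N + 2) ≤ 2 ^ i₀ := by nlinarith
    exact_mod_cast e7
  · have hlogN : 0 ≤ Real.log N := Real.log_nonneg hN1
    rw [Real.norm_of_nonneg hlogN, Real.norm_of_nonneg hz0.le] at n4
    have hJ : (J : ℝ) ≤ 2 * Real.log N := by
      have h3 : (2 : ℝ) ^ J ≤ N := by rw [hNR]; nlinarith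
      have h4 : Real.log ((2 : ℝ) ^ J) ≤ Real.log N := Real.log_le_log (by positivity) h3
      rw [Real.log_pow] at h4
      have h5 : (1 : ℝ) / 2 ≤ Real.log 2 := by linarith [Real.log_two_gt_d9]
      have h6 : (0 : ℝ) ≤ J := by positivity
      nlinarith
    have e3 : z ≤ 2 * B * 2 ^ i₀ := by
      have f1 : z * z ≤ (2 * B * 2 ^ i₀) * z := by
        calc z * z = B * 2 ^ J := by rw [hsq, hNR]
          _ ≤ B * (2 ^ i₀ * (2 * ζ)) := mul_le_mul_of_nonneg_left e1 hB0.le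
          _ ≤ B * (2 ^ i₀ * (2 * z)) := by gcongr
          _ = _ := by ring
      exact le_of_mul_le_mul_right f1 hz0
    have f3 : (A : ℝ) * (A * J) ≤ z / (4 * B) := by
      calc (A : ℝ) * (A * J) ≤ A * (A * (2 * (1 / (8 * A * A * B) * z))) := by
            gcongr; linarith
        _ = z / (4 * B) := by field_simp; norm_num
    have f4 : (A : ℝ) * (A * e + 1) ≤ z / (4 * B) := by
      rw [le_div_iff₀ (by positivity)]; linarith
    have f5 : z / (4 * B) + z / (4 * B) ≤ 2 ^ i₀ := by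
      have : z / (4 * B) + z / (4 * B) = z / (2 * B) := by field_simp; norm_num
      rw [this, div_le_iff₀ (by positivity)]; linarith
    calc (A : ℝ) * (A * (J + e) + 1) = A * (A * J) + A * (A * e + 1) := by ring
      _ ≤ _ := by linarith

end Pool.Agent.H77.OF
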