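import Pool.Agent.H77.OF.Local

/-!
The local theorem: a function computed fast on-line has only rational or Liouville derivatives.
-/

namespace Pool.Agent.H77.OF

open Pool.Agent.H77.RT Pool.Agent.H77.OL Turing Filter Asymptotics

/-- the digits of a real number -/
noncomputable def du {b : ℕ} (hb : 2 ≤ b) (y : ℝ) (i : ℕ) : Fin b := ⟨dig b y i, dig_lt hb y i⟩

theorem hor_dig {b : ℕ} (hb : 2 ≤ b) {y : ℝ} (h0 : 0 ≤ y) (h1 : y < 1) (n : ℕ) :
    hor b (fun i => (dig b y i : ℤ)) n = ⌊y * (b : ℝ) ^ n⌋ := by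
  induction n with
  | zero =>
    have : ⌊y⌋ = 0 := Int.floor_eq_zero_iff.2 ⟨h0, h1⟩
    simp [hor, this]
  | succ n ih =>
    rw [floor_succ hb, ← ih]; rfl

theorem val_mem {N b : ℕ} (hb : 2 ≤ b) (w : Fin N → Fin b) : 0 ≤ val b w ∧ val b w ≤ 1 := by
  have h := hor_tail (b := b) (d := dg w) (dg_nonneg w) (fun i => by
    have := dg_lt (by omega) w i; omega) 0 N
  simp only [hor, zero_add, mul_zero, mul_one] at h
  have hb0 : (0 : ℝ) < (b : ℝ) ^ N := by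
    have : (0 : ℝ) < b := by exact_mod_cast (by omega : 0 < b)
    positivity
  unfold val
  constructor
  · apply div_nonneg _ hb0.le
    exact_mod_cast h.1
  · rw [div_le_one hb0]
    have : (hor b (dg w) N : ℝ) + 1 ≤ (b : ℝ) ^ N := by exact_mod_cast h.2
    linarith

theorem pre_close {N b : ℕ} (hb : 2 ≤ b) {y : ℝ} (h0 : 0 ≤ y) (h1 : y < 1) {a₀ : ℕ} (ha : a₀ ≤ N)
    {w : Fin N → Fin b} (hw : Pre a₀ (du hb y) w) : |val b w - y| ≤ 1 / (b : ℝ) ^ a₀ := by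
  have hbR : (0 : ℝ) < b := by exact_mod_cast (by omega : 0 < b)
  obtain ⟨m, hm⟩ : ∃ m, N = a₀ + m := ⟨N - a₀, by omega⟩
  have h := hor_tail (b := b) (d := dg w) (dg_nonneg w) (fun i => by
    have := dg_lt (by omega) w i; omega) a₀ m
  have h2 : hor b (dg w) a₀ = ⌊y * (b : ℝ) ^ a₀⌋ := by
    rw [← hor_dig hb h0 h1]
    apply hor_congr
    intro i hi
    unfold dg
    rw [dif_pos (by omega), hw ⟨i, by omega⟩ hi]
    rfl
  rw [h2, ← hm] at h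
  have f1 := Int.floor_le (y * (b : ℝ) ^ a₀)
  have f2 := Int.lt_floor_add_one (y * (b : ℝ) ^ a₀)
  have t1 : (b : ℝ) ^ m * (⌊y * (b : ℝ) ^ a₀⌋ : ℝ) ≤ hor b (dg w) N := by exact_mod_cast h.1
  have t2 : (hor b (dg w) N : ℝ) + 1 ≤ (b : ℝ) ^ m * ((⌊y * (b : ℝ) ^ a₀⌋ : ℝ) + 1) := by
    exact_mod_cast h.2
  have hp : (0 : ℝ) < (b : ℝ) ^ m := by positivity
  have hpa : (0 : ℝ) < (b : ℝ) ^ a₀ := by positivity
  have e1 : val b w - y = (hor b (dg w) N - y * (b : ℝ) ^ a₀ * (b : ℝ) ^ m) /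
      ((b : ℝ) ^ a₀ * (b : ℝ) ^ m) := by
    unfold val
    rw [← pow_add, ← hm]
    have : (0 : ℝ) < (b : ℝ) ^ N := by positivity
    rw [eq_div_iff this.ne', sub_mul, div_mul_cancel₀ _ this.ne', mul_assoc, ← pow_add, ← hm]
  rw [e1, abs_div, abs_of_pos (show (0 : ℝ) < (b : ℝ) ^ a₀ * (b : ℝ) ^ m by positivity),
    div_le_div_iff₀ (by positivity) hpa, one_mul]
  have h3 : |(hor b (dg w) N : ℝ) - y * (b : ℝ) ^ a₀ * (b : ℝ) ^ m| ≤ (b : ℝ) ^ m := by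
    rw [abs_le]
    constructor <;> nlinarith
  nlinarith

/-- the number of words with a fixed beginning -/
theorem card_pre {N b a₀ : ℕ} (ha : a₀ ≤ N) (u : ℕ → Fin b) (W : Finset (Fin N → Fin b))
    (hW : ∀ w, Pre a₀ u w → w ∈ W) : b ^ (N - a₀) ≤ W.card := by
  classical
  have h1 : b ^ (N - a₀) = Fintype.card (Fin (N - a₀) → Fin b) := by simp
  rw [h1, ← Finset.card_univ]
  apply Finset.card_le_card_of_injOn
    (fun z : Fin (N - a₀) → Fin b => fun i : Fin N =>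
      if h : (i : ℕ) < a₀ then u i else z ⟨(i : ℕ) - a₀, by have := i.2; omega⟩)
  · intro z _
    apply hW
    intro i hi
    simp only [hi, dif_pos]
  · intro z _ z' _ h
    funext i
    have h2 := congrFun h ⟨a₀ + i, by have := i.2; omega⟩
    simp only at h2
    rw [dif_neg (by omega), dif_neg (by omega)] at h2
    have e : (⟨a₀ + (i : ℕ) - a₀, by have := i.2; omega⟩ : Fin (N - a₀)) = i :=
      Fin.ext (by simp)
    rwa [e] at h2

theorem two_pow_tendsto : Tendsto (fun J : ℕ => 2 ^ J) atTop (atTop : Filter ℕ) :=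
  tendsto_atTop_mono (fun _ => (Nat.lt_two_pow_self).le) tendsto_id

/-- **Local theorem.** -/
theorem local_lb {K : Type} [Fintype K] [DecidableEq K] {Γ : K → Type} [∀ k, Fintype (Γ k)] {Λ : Type}
    [Fintype Λ] {σ : Type} [Fintype σ] {b : ℕ} (hb : 2 ≤ b) {α : ℝ} (hα : ¬ Liouville α)
    (hirr : Irrational α) (M : Λ → TM2.Stmt Γ Λ σ) (l₀ : Λ) (v₀ : σ) {inp out : K}
    (ne : out ≠ inp) (rd : Fin b → Γ inp) (wr : Γ out → ℤ) (E : ℝ) {f : ℝ → ℝ} {T D : ℕ → ℕ}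
    (hTm : Monotone T) (hDm : Monotone D)
    (hD : (fun n => (D n : ℝ)) =o[atTop] (fun n => (n : ℝ)))
    (hT : (fun n => (T n : ℝ)) =o[atTop] fun n => (n : ℝ) * Real.log ((n : ℝ) / ((D n : ℝ) + 1)))
    {y C r δ : ℝ} (h0 : 0 ≤ y) (h1 : y < 1) (hr : 0 < r) (hδ : 0 < δ)
    (hf : ∀ ρ x x' : ℝ, ρ ≤ δ → x ∈ Set.Icc (0 : ℝ) 1 → x' ∈ Set.Icc (0 : ℝ) 1 → |x - y| ≤ ρ →
      |x' - y| ≤ ρ → |f x - f x' - α * (x - x')| ≤ C * ρ ^ r * |x - x'|) :
    ¬ ∀ w, RawComp M l₀ v₀ inp out rd wr f E T D w := by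
  classical
  intro hall
  obtain ⟨A, hA, heng⟩ := engine hb hα hirr M l₀ v₀ ne rd wr E
  have hb1 : (1 : ℝ) < b := by exact_mod_cast (by omega : 1 < b)
  have hb0 : (0 : ℝ) < b := by linarith
  have hα0 : 0 < |α| := abs_pos.2 hirr.ne_zero
  -- the ratio of the lengths
  obtain ⟨e, he⟩ : ∃ e : ℕ, 3 / r < (2 : ℝ) ^ e := pow_unbounded_of_one_lt _ (by norm_num)
  rw [div_lt_iff₀ hr] at he
  have hpe : 1 ≤ 2 ^ e := Nat.one_le_two_pow
  have ev1 : ∀ᶠ J : ℕ in atTop, |C| ≤ (b : ℝ) ^ (2 ^ J) := by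
    have := (tendsto_pow_atTop_atTop_of_one_lt hb1).comp two_pow_tendsto
    exact this.eventually_ge_atTop |C|
  have ev2 : ∀ᶠ J : ℕ in atTop, 2 / |α| ≤ (b : ℝ) ^ (2 ^ J) := by
    have := (tendsto_pow_atTop_atTop_of_one_lt hb1).comp two_pow_tendsto
    exact this.eventually_ge_atTop (2 / |α|)
  have ev3 : ∀ᶠ J : ℕ in atTop, 1 / δ ≤ (b : ℝ) ^ (2 ^ J) := by
    have := (tendsto_pow_atTop_atTop_of_one_lt hb1).comp two_pow_tendsto
    exact this.eventually_ge_atTop (1 / δ)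
  obtain ⟨J, ⟨i₀, L, hJ, c1, c2, c3⟩, c4, c5, c6⟩ :=
    ((asyJ (B := 2 ^ e + 4) hA (by omega) (e + 4) hD hT).and (ev1.and (ev2.and ev3))).exists
  obtain ⟨N, hN⟩ : ∃ N, N = (2 ^ e + 4) * 2 ^ J := ⟨_, rfl⟩
  obtain ⟨a₀, ha₀⟩ : ∃ a₀, a₀ = 2 ^ e * 2 ^ J := ⟨_, rfl⟩
  rw [← hN] at c1 c2
  have hNa : N = a₀ + 4 * 2 ^ J := by rw [hN, ha₀]; ring
  -- the closeness of the derivative
  obtain ⟨ρ, hρ⟩ : ∃ ρ : ℝ, ρ = 1 / (b : ℝ) ^ a₀ := ⟨_, rfl⟩
  have hρ0 : 0 < ρ := by rw [hρ]; positivity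
  have hρδ : ρ ≤ δ := by
    have h2 : (b : ℝ) ^ (2 ^ J) ≤ (b : ℝ) ^ a₀ := by
      apply pow_le_pow_right₀ hb1.le
      rw [ha₀]; exact Nat.le_mul_of_pos_left _ (by omega)
    rw [hρ, div_le_iff₀ (by positivity)]
    rw [div_le_iff₀ hδ] at c6
    nlinarith
  have hρr : ρ ^ r ≤ 1 / (b : ℝ) ^ (3 * 2 ^ J) := by
    rw [hρ, Real.div_rpow (by norm_num) (by positivity), Real.one_rpow]
    apply one_div_le_one_div_of_le (by positivity)
    rw [← Real.rpow_natCast, ← Real.rpow_natCast, ← Real.rpow_mul hb0.le]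
    apply Real.rpow_le_rpow_of_exponent_le hb1.le
    rw [ha₀]
    push_cast
    have : (0 : ℝ) < 2 ^ J := by positivity
    nlinarith
  have hη : |C| * ρ ^ r ≤ 1 / (b : ℝ) ^ (2 * 2 ^ J) := by
    calc |C| * ρ ^ r ≤ (b : ℝ) ^ (2 ^ J) * (1 / (b : ℝ) ^ (3 * 2 ^ J)) :=
          mul_le_mul c4 hρr (by positivity) (by positivity)
      _ = 1 / (b : ℝ) ^ (2 * 2 ^ J) := by
          rw [show 3 * 2 ^ J = 2 ^ J + 2 * 2 ^ J by ring, pow_add]
          field_simp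
  have hηα : |C| * ρ ^ r ≤ |α| / 2 := by
    refine hη.trans ?_
    rw [div_le_iff₀ hα0] at c5
    have h2 : (b : ℝ) ^ (2 ^ J) ≤ (b : ℝ) ^ (2 * 2 ^ J) := pow_le_pow_right₀ hb1.le (by omega)
    rw [div_le_iff₀ (by positivity)]
    nlinarith
  have hclose : ∀ w w' : Fin N → Fin b, Pre a₀ (du hb y) w → Pre a₀ (du hb y) w' →
      |f (val b w) - f (val b w') - α * (val b w - val b w')| ≤
        |C| * ρ ^ r * |val b w - val b w'| := by
    intro w w' hw hw'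
    have h2 := pre_close hb h0 h1 (by omega) hw
    have h3 := pre_close hb h0 h1 (by omega) hw'
    rw [← hρ] at h2 h3
    refine (hf ρ _ _ hρδ (val_mem hb w) (val_mem hb w') h2 h3).trans ?_
    apply mul_le_mul_of_nonneg_right _ (abs_nonneg _)
    exact mul_le_mul_of_nonneg_right (le_abs_self C) (by positivity)
  have hle : ∀ n ≤ a₀ + 2 * 2 ^ (i₀ + L), n ≤ N := by
    intro n hn; rw [← hJ] at hn; omega
  have key := heng f T D N i₀ L a₀ (du hb y) (|C| * ρ ^ r)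
    (fun n hn => lt_of_le_of_lt (Nat.mul_le_mul_left _ (hTm (hle n hn))) c1)
    (fun n hn => (Nat.mul_le_mul_left _ (Nat.add_le_add_right (hDm (hle n hn)) _)).trans c2)
    (by rw [← hJ]; omega) hηα (by rw [← hJ]; exact hη) hclose
    (Finset.univ.filter (fun w => Pre a₀ (du hb y) w))
    (fun w hw => (Finset.mem_filter.1 hw).2) (fun w _ => hall _)
  have hcard := card_pre (N := N) (a₀ := a₀) (by omega) (du hb y)
    (Finset.univ.filter (fun w => Pre a₀ (du hb y) w))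
    (fun w hw => Finset.mem_filter.2 ⟨Finset.mem_univ _, hw⟩)
  have h2 : b ^ (N - a₀) * b ^ (2 ^ i₀ / A) ≤ b ^ (N - a₀) * N ^ A := by
    calc _ ≤ _ := Nat.mul_le_mul_right _ hcard
      _ ≤ N ^ A * b ^ (N - a₀) := key
      _ = _ := Nat.mul_comm _ _
  have h3 : b ^ (2 ^ i₀ / A) ≤ N ^ A := Nat.le_of_mul_le_mul_left h2 (by positivity)
  -- contradiction
  have hN8 : N < 2 ^ (J + (e + 4)) := by
    have h5 : 2 ^ (J + (e + 4)) = 16 * (2 ^ e * 2 ^ J) := by rw [pow_add, pow_add]; ring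
    have h6 : 2 ^ J ≤ 2 ^ e * 2 ^ J := Nat.le_mul_of_pos_left _ (by omega)
    have h7 : 0 < 2 ^ J := by positivity
    rw [hNa, ha₀]; omega
  have h4 : N ^ A < 2 ^ (A * (J + (e + 4))) := by
    calc N ^ A < (2 ^ (J + (e + 4))) ^ A := Nat.pow_lt_pow_left hN8 (by omega)
      _ = _ := by rw [← pow_mul]; congr 1; ring
  have h5 : A * (J + (e + 4)) ≤ 2 ^ i₀ / A := by
    rw [Nat.le_div_iff_mul_le hA]
    have h6 : (A : ℝ) * (A * (J + (e + 4))) ≤ 2 ^ i₀ := by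
      push_cast at c3
      nlinarith [show (0 : ℝ) ≤ A by positivity]
    have h7 : A * (A * (J + (e + 4))) ≤ 2 ^ i₀ := by exact_mod_cast h6
    calc A * (J + (e + 4)) * A = A * (A * (J + (e + 4))) := by ring
      _ ≤ _ := h7
  have h6 : 2 ^ (A * (J + (e + 4))) ≤ b ^ (2 ^ i₀ / A) :=
    (Nat.pow_le_pow_right (by norm_num) h5).trans (Nat.pow_le_pow_left hb _)
  omega

end Pool.Agent.H77.OF
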