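import Pool.Agent.H77.OL.Sys

/-!
Diophantine input for functions with a derivative, words with a fixed beginning.
-/

namespace Pool.Agent.H77.OF

open Pool.Agent.H77.OL

theorem diff_dioph {N b s x : ℕ} (hb : 2 ≤ b) {α : ℝ} {d C₂ : ℕ} (hL : Dio b α d C₂) {E : ℝ} {C₁ : ℕ}
    (hC₁ : 2 * E ≤ (b : ℝ) ^ C₁) {w w' : Fin N → Fin b} (h : Off s x w w') (hne : w ≠ w')
    (hsx : s + x ≤ N) {q n y : ℕ} (hq : q ≤ s + x + y) {e e' : ℕ → ℤ}
    (hee : ∀ i, q ≤ i → i < n → e i = e' i)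
    (h12 : |α * (val b w - val b w') - ((hor b e n : ℝ) - hor b e' n) / (b : ℝ) ^ n| ≤
      2 * E / (b : ℝ) ^ n) :
    n ≤ s + x + y + d * (x + y) + C₁ + C₂ := by
  by_contra hcon
  push Not at hcon
  obtain ⟨j, hj, hj', h3⟩ := val_diff hb h hne hsx
  have hb1 : (1 : ℝ) ≤ b := by exact_mod_cast (by omega : 1 ≤ b)
  have hb0 : (0 : ℝ) < b := by linarith
  set p := s + x with hp
  set q₁ := max q p with hq₁
  have hq₁n : q₁ ≤ p + y := max_le hq (by omega)
  have hqq : q ≤ q₁ := le_max_left _ _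
  have hpq : p ≤ q₁ := le_max_right _ _
  set I : ℤ := hor b e q - hor b e' q with hI
  have h4 : (hor b e n : ℝ) - hor b e' n = (b : ℝ) ^ (n - q) * I := by
    have := hor_add (b := b) (d := e) (d' := e') (q := q) (n := n - q) (by
      intro i hi1 hi2
      exact hee i hi1 (by omega))
    rw [show q + (n - q) = n by omega] at this
    exact_mod_cast this
  have h5 : |α * (val b w - val b w') - ((b : ℝ) ^ (n - q) * I) / (b : ℝ) ^ n| ≤
      2 * E / (b : ℝ) ^ n := by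
    rw [← h4]; exact h12
  have h6 : |α * (j * (b : ℝ) ^ (q₁ - p)) - (b : ℝ) ^ (q₁ - q) * I| ≤ 2 * E / (b : ℝ) ^ (n - q₁) := by
    have e1 : α * (j * (b : ℝ) ^ (q₁ - p)) - (b : ℝ) ^ (q₁ - q) * I =
        (α * (val b w - val b w') - ((b : ℝ) ^ (n - q) * I) / (b : ℝ) ^ n) * (b : ℝ) ^ q₁ := by
      have f1 : (b : ℝ) ^ q₁ = (b : ℝ) ^ p * (b : ℝ) ^ (q₁ - p) := by
        rw [← pow_add]; congr 1; omega
      have f2 : (b : ℝ) ^ n = (b : ℝ) ^ (n - q) * (b : ℝ) ^ q := by rw [← pow_add]; congr 1; omega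
      have f3 : (b : ℝ) ^ q₁ = (b : ℝ) ^ (q₁ - q) * (b : ℝ) ^ q := by rw [← pow_add]; congr 1; omega
      have f4 : ((b : ℝ) ^ (n - q) * I) / (b : ℝ) ^ n * (b : ℝ) ^ q₁ = (b : ℝ) ^ (q₁ - q) * I := by
        rw [f2, f3]; field_simp
      rw [sub_mul, f4, f1, ← h3]; ring
    rw [e1, abs_mul, abs_of_pos (show (0 : ℝ) < (b : ℝ) ^ q₁ by positivity)]
    have f5 : (b : ℝ) ^ n = (b : ℝ) ^ (n - q₁) * (b : ℝ) ^ q₁ := by rw [← pow_add]; congr 1; omega
    calc _ ≤ 2 * E / (b : ℝ) ^ n * (b : ℝ) ^ q₁ := mul_le_mul_of_nonneg_right h5 (by positivity)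
      _ = _ := by rw [f5]; field_simp
  obtain ⟨Q, hQ⟩ : ∃ Q : ℕ, Q = j.natAbs * b ^ (q₁ - p) := ⟨_, rfl⟩
  have hj1 : 1 ≤ j.natAbs := Int.natAbs_pos.2 hj
  have hQ0 : 0 < Q := by rw [hQ]; positivity
  have hQle : Q ≤ b ^ (x + y) := by
    have f1 : j.natAbs < b ^ x := by
      have : (j.natAbs : ℤ) < b ^ x := by rw [Int.natCast_natAbs]; exact hj'
      exact_mod_cast this
    rw [hQ]
    calc j.natAbs * b ^ (q₁ - p) ≤ b ^ x * b ^ y :=
          Nat.mul_le_mul f1.le (Nat.pow_le_pow_right (by omega) (by omega))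
      _ = _ := by rw [← pow_add]
  have hQR : (Q : ℝ) = |(j : ℝ)| * (b : ℝ) ^ (q₁ - p) := by
    rw [hQ]; push_cast; rw [Nat.cast_natAbs]; push_cast; rfl
  have h7 : ∃ I' : ℤ, |α * Q - I'| ≤ 2 * E / (b : ℝ) ^ (n - q₁) := by
    rcases le_total 0 j with hj0 | hj0
    · refine ⟨b ^ (q₁ - q) * I, ?_⟩
      have hj0R : (0 : ℝ) ≤ (j : ℝ) := by exact_mod_cast hj0
      rw [hQR, abs_of_nonneg hj0R]
      push_cast
      exact h6
    · refine ⟨-(b ^ (q₁ - q) * I), ?_⟩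
      have hj0R : (j : ℝ) ≤ 0 := by exact_mod_cast hj0
      rw [hQR, abs_of_nonpos hj0R]
      push_cast
      have f1 : α * (-(j : ℝ) * (b : ℝ) ^ (q₁ - p)) - -((b : ℝ) ^ (q₁ - q) * I) =
          -(α * (j * (b : ℝ) ^ (q₁ - p)) - (b : ℝ) ^ (q₁ - q) * I) := by ring
      rw [f1, abs_neg]
      exact h6
  obtain ⟨I', h7⟩ := h7
  have hQR1 : (1 : ℝ) ≤ Q := by exact_mod_cast hQ0
  have h8 : |α - I' / Q| * (b : ℝ) ^ (n - q₁ - C₁) ≤ 1 := by
    have f1 : |α - I' / Q| ≤ 2 * E / (b : ℝ) ^ (n - q₁) := by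
      have f2 : α - I' / Q = (α * Q - I') / Q := by field_simp
      rw [f2, abs_div, abs_of_pos (show (0 : ℝ) < Q by linarith), div_le_iff₀ (by linarith)]
      have f3 : 0 ≤ 2 * E / (b : ℝ) ^ (n - q₁) := (abs_nonneg _).trans h7
      nlinarith
    have f4 : (b : ℝ) ^ (n - q₁) = (b : ℝ) ^ C₁ * (b : ℝ) ^ (n - q₁ - C₁) := by
      rw [← pow_add]; congr 1; omega
    calc |α - I' / Q| * (b : ℝ) ^ (n - q₁ - C₁)
        ≤ 2 * E / (b : ℝ) ^ (n - q₁) * (b : ℝ) ^ (n - q₁ - C₁) :=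
          mul_le_mul_of_nonneg_right f1 (by positivity)
      _ ≤ (b : ℝ) ^ C₁ / (b : ℝ) ^ (n - q₁) * (b : ℝ) ^ (n - q₁ - C₁) := by gcongr
      _ = 1 := by rw [f4]; field_simp
  have h9 := hL I' Q (n - q₁ - C₁) (x + y) hQ0 hQle h8
  omega

/-- two words in a class whose images have the same first digits -/
theorem diff_early {N b s x : ℕ} (hb : 2 ≤ b) {α : ℝ} (hα : α ≠ 0) {E : ℝ} {C₁ : ℕ}
    (hC₁ : 4 * E ≤ |α| * (b : ℝ) ^ C₁) {w w' : Fin N → Fin b} (h : Off s x w w') (hne : w ≠ w')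
    (hsx : s + x ≤ N) {n : ℕ} {F F' A : ℝ}
    (h1 : |F - A / (b : ℝ) ^ n| ≤ E / (b : ℝ) ^ n) (h2 : |F' - A / (b : ℝ) ^ n| ≤ E / (b : ℝ) ^ n)
    (hF : |F - F' - α * (val b w - val b w')| ≤ |α| / 2 * |val b w - val b w'|) :
    n ≤ s + x + C₁ := by
  by_contra hcon
  push Not at hcon
  obtain ⟨j, hj, hj', h3⟩ := val_diff hb h hne hsx
  have hb1 : (1 : ℝ) < b := by exact_mod_cast (by omega : 1 < b)
  have hb0 : (0 : ℝ) < b := by linarith
  have hα0 : 0 < |α| := abs_pos.2 hα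
  set δ := val b w - val b w' with hδ
  have h5 : |F - F'| ≤ 2 * E / (b : ℝ) ^ n := by
    have e1 : F - F' = (F - A / (b : ℝ) ^ n) - (F' - A / (b : ℝ) ^ n) := by ring
    rw [e1]
    calc _ ≤ |F - A / (b : ℝ) ^ n| + |F' - A / (b : ℝ) ^ n| := abs_sub _ _
      _ ≤ E / (b : ℝ) ^ n + E / (b : ℝ) ^ n := add_le_add h1 h2
      _ = _ := by ring
  have h6 : |α| / 2 * |δ| ≤ 2 * E / (b : ℝ) ^ n := by
    refine le_trans ?_ h5
    have e1 : |α * δ| ≤ |F - F'| + |F - F' - α * δ| := by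
      have : α * δ = (F - F') - (F - F' - α * δ) := by ring
      calc |α * δ| = |(F - F') - (F - F' - α * δ)| := by rw [← this]
        _ ≤ _ := abs_sub _ _
    rw [abs_mul] at e1
    linarith
  have h7 : (1 : ℝ) ≤ |δ| * (b : ℝ) ^ (s + x) := by
    rw [← abs_of_pos (show (0 : ℝ) < (b : ℝ) ^ (s + x) by positivity), ← abs_mul, h3]
    have : (1 : ℤ) ≤ |j| := Int.one_le_abs hj
    exact_mod_cast this
  have h8 : (b : ℝ) ^ n = (b : ℝ) ^ C₁ * (b : ℝ) ^ (s + x) * (b : ℝ) ^ (n - (s + x + C₁)) := by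
    rw [← pow_add, ← pow_add]; congr 1; omega
  have h9 : |α| ≤ |α| / (b : ℝ) ^ (n - (s + x + C₁)) := by
    calc |α| ≤ |α| * (|δ| * (b : ℝ) ^ (s + x)) := by nlinarith
      _ = 2 * (|α| / 2 * |δ|) * (b : ℝ) ^ (s + x) := by ring
      _ ≤ 2 * (2 * E / (b : ℝ) ^ n) * (b : ℝ) ^ (s + x) := by gcongr
      _ = 4 * E / (b : ℝ) ^ n * (b : ℝ) ^ (s + x) := by ring
      _ ≤ |α| * (b : ℝ) ^ C₁ / (b : ℝ) ^ n * (b : ℝ) ^ (s + x) := by gcongr
      _ = _ := by rw [h8]; field_simp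
  rw [le_div_iff₀ (by positivity)] at h9
  have h10 : (1 : ℝ) < (b : ℝ) ^ (n - (s + x + C₁)) := one_lt_pow₀ hb1 (by omega)
  nlinarith

/-- the word begins with the first `a₀` letters of `v` -/
def Pre {N b : ℕ} (a₀ : ℕ) (v : ℕ → Fin b) (w : Fin N → Fin b) : Prop :=
  ∀ i : Fin N, (i : ℕ) < a₀ → w i = v i

/-- counting a set of words with a fixed beginning by means of the classes of a window -/
theorem card_window_pre {N b : ℕ} {a₀ : ℕ} {v : ℕ → Fin b} (W : Finset (Fin N → Fin b))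
    (hW : ∀ w ∈ W, Pre a₀ v w) {s x c : ℕ} (has : a₀ ≤ s) (hsx : s + x ≤ N)
    (h : ∀ V : Finset (Fin N → Fin b), V ⊆ W → (∀ w ∈ V, ∀ w' ∈ V, Off s x w w') → V.card ≤ c) :
    W.card ≤ c * b ^ (N - a₀ - x) := by
  classical
  set φ : (Fin N → Fin b) → ({i : Fin N // a₀ ≤ (i : ℕ) ∧ ¬ (s ≤ (i : ℕ) ∧ (i : ℕ) < s + x)} → Fin b) :=
    fun w i => w i.1 with hφ
  have h1 := Finset.card_le_mul_card_image (f := φ) W c (by
    intro a _
    apply h _ (Finset.filter_subset _ _)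
    intro w hw w' hw' i hi
    obtain ⟨m1, e1⟩ := Finset.mem_filter.1 hw
    obtain ⟨m2, e2⟩ := Finset.mem_filter.1 hw'
    by_cases hia : (i : ℕ) < a₀
    · rw [hW w m1 i hia, hW w' m2 i hia]
    · have := congrFun (e1.trans e2.symm) ⟨i, by omega, hi⟩
      exact this)
  refine h1.trans (Nat.mul_le_mul_left _ ?_)
  refine (Finset.card_le_univ _).trans ?_
  rw [Fintype.card_fun, Fintype.card_fin]
  apply le_of_eq
  congr 1
  rw [Fintype.card_subtype]
  have h2 : (Finset.univ.filter (fun i : Fin N => a₀ ≤ (i : ℕ) ∧ ¬ (s ≤ (i : ℕ) ∧ (i : ℕ) < s + x))) =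
      (Finset.univ.filter (fun i : Fin N => a₀ ≤ (i : ℕ))) \
        (Finset.univ.filter (fun i : Fin N => s ≤ (i : ℕ) ∧ (i : ℕ) < s + x)) := by
    ext i
    simp only [Finset.mem_filter, Finset.mem_univ, true_and, Finset.mem_sdiff]
  have h3 : (Finset.univ.filter (fun i : Fin N => s ≤ (i : ℕ) ∧ (i : ℕ) < s + x)) =
        (Finset.univ : Finset (Fin x)).map ⟨fun i : Fin x => (⟨s + i.1, by have := i.2; omega⟩ : Fin N), by
          intro i j hij
          have := congrArg Fin.val hij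
          simp only at this
          exact Fin.ext (by omega)⟩ := by
      ext i
      simp only [Finset.mem_filter, Finset.mem_univ, true_and, Finset.mem_map,
        Function.Embedding.coeFn_mk]
      constructor
      · rintro ⟨h4, h5⟩
        exact ⟨⟨i.1 - s, by omega⟩, Fin.ext (by simp only; omega)⟩
      · rintro ⟨j, rfl⟩
        have := j.2
        simp only
        omega
  have h4 : (Finset.univ.filter (fun i : Fin N => a₀ ≤ (i : ℕ))) =
        (Finset.univ : Finset (Fin (N - a₀))).map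
          ⟨fun i : Fin (N - a₀) => (⟨a₀ + i.1, by have := i.2; omega⟩ : Fin N), by
          intro i j hij
          have := congrArg Fin.val hij
          simp only at this
          exact Fin.ext (by omega)⟩ := by
      ext i
      simp only [Finset.mem_filter, Finset.mem_univ, true_and, Finset.mem_map,
        Function.Embedding.coeFn_mk]
      constructor
      · intro h4
        exact ⟨⟨i.1 - a₀, by have := i.2; omega⟩, Fin.ext (by simp only; omega)⟩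
      · rintro ⟨j, rfl⟩
        simp only
        omega
  rw [h2, Finset.card_sdiff_of_subset, h3, h4, Finset.card_map, Finset.card_map, Finset.card_univ,
    Finset.card_univ, Fintype.card_fin, Fintype.card_fin]
  intro i hi
  simp only [Finset.mem_filter, Finset.mem_univ, true_and] at hi ⊢
  omega

end Pool.Agent.H77.OF
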