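import Pool.Agent.H77.OF.Local2

/-!
The machine that computes `α y + β` for rational `α` and real-time computable `β`.
-/

namespace Pool.Agent.H77.OF

open Pool.Agent.H77.RT Pool.Agent.H77.OL Turing

section err

variable {b q : ℕ}

theorem rat_err (hb : 0 < b) (hq : 0 < q) (p : ℤ) (w : List (Fin b)) {n : ℕ} (hn : n ≤ w.length) :
    |(p : ℝ) / q * vl b (w.map fun a : Fin b => ((a : ℕ) : ℤ)) -
      (hor b (fun i => wrP p (rem hq p (fun i => w.getD i ⟨0, hb⟩) i, w.getD i ⟨0, hb⟩)) n : ℝ) /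
        (b : ℝ) ^ n| ≤ (|(p : ℝ) / q| + 1) / (b : ℝ) ^ n := by
  set d : ℕ → Fin b := fun i => w.getD i ⟨0, hb⟩ with hd
  have e1 : vl b (w.map fun a : Fin b => ((a : ℕ) : ℤ)) =
      (hor b (fun i => ((d i : ℕ) : ℤ)) w.length : ℝ) / (b : ℝ) ^ w.length := by
    apply vl_eq hb
    · simp
    · intro i hi
      simp [hd, List.getD_eq_getElem?_getD, List.getElem?_eq_getElem hi]
  rw [e1]
  obtain ⟨m, hm⟩ : ∃ m, w.length = n + m := ⟨w.length - n, by omega⟩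
  rw [hm]
  have hbR : (0 : ℝ) < b := by exact_mod_cast hb
  have hqR : (0 : ℝ) < q := by exact_mod_cast hq
  obtain ⟨t1, t2⟩ := hor_tail (b := b) (d := fun i => ((d i : ℕ) : ℤ)) (fun i => by positivity)
    (fun i => by have := (d i).2; omega) n m
  have inv := rem_inv hq p d n
  set Y : ℤ := hor b (fun i => ((d i : ℕ) : ℤ)) n with hY
  set Z : ℤ := hor b (fun i => ((d i : ℕ) : ℤ)) (n + m) with hZ
  set A : ℤ := hor b (fun i => wrP p (rem hq p d i, d i)) n with hA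
  have t1R : (b : ℝ) ^ m * Y ≤ Z := by exact_mod_cast t1
  have t2R : (Z : ℝ) + 1 ≤ (b : ℝ) ^ m * (Y + 1) := by exact_mod_cast t2
  have invR : (p : ℝ) * Y = q * A + (rem hq p d n : ℕ) := by exact_mod_cast inv
  have hrem : ((rem hq p d n : ℕ) : ℝ) ≤ q := by exact_mod_cast (rem hq p d n).2.le
  have key : (p : ℝ) / q * ((Z : ℝ) / (b : ℝ) ^ (n + m)) - (A : ℝ) / (b : ℝ) ^ n =
      (p / q * ((Z - (b : ℝ) ^ m * Y) / (b : ℝ) ^ m) + (rem hq p d n : ℕ) / q) /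
        (b : ℝ) ^ n := by
    have : (A : ℝ) = (p * Y - (rem hq p d n : ℕ)) / q := by rw [invR]; field_simp; ring
    rw [this, pow_add]
    field_simp
    ring
  rw [key, abs_div, abs_of_pos (show (0 : ℝ) < (b : ℝ) ^ n by positivity)]
  apply div_le_div_of_nonneg_right _ (by positivity)
  refine (abs_add_le _ _).trans (add_le_add ?_ ?_)
  · rw [abs_mul]
    have h1 : |(Z - (b : ℝ) ^ m * Y) / (b : ℝ) ^ m| ≤ 1 := by
      rw [abs_div, abs_of_pos (show (0 : ℝ) < (b : ℝ) ^ m by positivity),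
        abs_of_nonneg (by linarith), div_le_one (by positivity)]
      linarith
    calc |(p : ℝ) / q| * |(Z - (b : ℝ) ^ m * Y) / (b : ℝ) ^ m| ≤ |(p : ℝ) / q| * 1 :=
          mul_le_mul_of_nonneg_left h1 (abs_nonneg _)
      _ = _ := mul_one _
  · rw [abs_of_nonneg (by positivity), div_le_one hqR]
    exact hrem

theorem hor_add_fun (b : ℕ) (d d' : ℕ → ℤ) (n : ℕ) :
    hor b (fun i => d i + d' i) n = hor b d n + hor b d' n := by
  induction n with
  | zero => rfl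
  | succ n ih =>
    show (b : ℤ) * hor b (fun i => d i + d' i) n + (d n + d' n) = (b * hor b d n + d n) +
      (b * hor b d' n + d' n)
    rw [ih]; ring

theorem hor_first (b : ℕ) (m : ℤ) (n : ℕ) :
    hor b (fun i => if i = 0 then b * m else 0) (n + 1) = m * b ^ (n + 1) := by
  induction n with
  | zero => simp [hor, mul_comm]
  | succ n ih =>
    show (b : ℤ) * hor b (fun i => if i = 0 then b * m else 0) (n + 1) +
      (if n + 1 = 0 then (b : ℤ) * m else 0) = _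
    rw [ih, if_neg (by omega)]; ring

theorem hor_dig' {b : ℕ} (hb : 2 ≤ b) (y : ℝ) (n : ℕ) :
    hor b (fun i => (dig b y i : ℤ)) n + ⌊y⌋ * b ^ n = ⌊y * (b : ℝ) ^ n⌋ := by
  induction n with
  | zero => simp [hor]
  | succ n ih =>
    rw [floor_succ hb, ← ih, pow_succ]
    show (b : ℤ) * hor b (fun i => (dig b y i : ℤ)) n + dig b y n + ⌊y⌋ * (b ^ n * b) = _
    ring

/-- the error of the sum -/
theorem sum_err (hb : 2 ≤ b) (hq : 0 < q) (p : ℤ) (β : ℝ) (w : List (Fin b)) {n : ℕ}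
    (hn : n ≤ w.length) {e : ℕ → ℤ}
    (he : ∀ i < n, e i = wrP p (rem hq p (fun i => w.getD i ⟨0, by omega⟩) i, w.getD i ⟨0, by omega⟩) +
      (dig b β i : ℤ) + (if i = 0 then b * ⌊β⌋ else 0)) :
    |((p : ℝ) / q * vl b (w.map fun a : Fin b => ((a : ℕ) : ℤ)) + β) -
      (hor b e n : ℝ) / (b : ℝ) ^ n| ≤ (|(p : ℝ) / q| + |β| + 2) / (b : ℝ) ^ n := by
  have hbR : (0 : ℝ) < b := by exact_mod_cast (by omega : 0 < b)
  have hpn : (0 : ℝ) < (b : ℝ) ^ n := by positivity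
  have h1 := rat_err (by omega) hq p w hn
  rw [hor_congr he, hor_add_fun, hor_add_fun]
  set A : ℤ := hor b (fun i => wrP p (rem hq p (fun i => w.getD i ⟨0, by omega⟩) i,
    w.getD i ⟨0, by omega⟩)) n with hA
  set v := vl b (w.map fun a : Fin b => ((a : ℕ) : ℤ)) with hv
  rcases Nat.eq_zero_or_pos n with h0 | h0
  · subst h0
    simp only [hor, pow_zero, div_one] at h1 ⊢
    simp only [hA, hor, Int.cast_zero, sub_zero] at h1 ⊢
    simp only [add_zero, Int.cast_zero, sub_zero]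
    calc |(p : ℝ) / q * v + β| ≤ |(p : ℝ) / q * v| + |β| := abs_add_le _ _
      _ ≤ (|(p : ℝ) / q| + 1) + |β| := by linarith
      _ ≤ _ := by linarith
  · obtain ⟨m, rfl⟩ : ∃ m, n = m + 1 := ⟨n - 1, by omega⟩
    rw [hor_first]
    have h2 := hor_dig' hb β (m + 1)
    have e1 : ((A + hor b (fun i => (dig b β i : ℤ)) (m + 1) + ⌊β⌋ * b ^ (m + 1) : ℤ) : ℝ) =
        A + ⌊β * (b : ℝ) ^ (m + 1)⌋ := by
      rw [← h2]; push_cast; ring
    rw [e1]
    have f1 := Int.floor_le (β * (b : ℝ) ^ (m + 1))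
    have f2 := Int.lt_floor_add_one (β * (b : ℝ) ^ (m + 1))
    have h3 : |β - (⌊β * (b : ℝ) ^ (m + 1)⌋ : ℝ) / (b : ℝ) ^ (m + 1)| ≤ 1 / (b : ℝ) ^ (m + 1) := by
      have e2 : β - (⌊β * (b : ℝ) ^ (m + 1)⌋ : ℝ) / (b : ℝ) ^ (m + 1) =
          (β * (b : ℝ) ^ (m + 1) - ⌊β * (b : ℝ) ^ (m + 1)⌋) / (b : ℝ) ^ (m + 1) := by
        field_simp
      rw [e2, abs_div, abs_of_pos hpn]
      apply div_le_div_of_nonneg_right _ hpn.le
      rw [abs_of_nonneg (by linarith)]; linarith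
    have e3 : ((p : ℝ) / q * v + β) - ((A : ℝ) + ⌊β * (b : ℝ) ^ (m + 1)⌋) / (b : ℝ) ^ (m + 1) =
        ((p : ℝ) / q * v - (A : ℝ) / (b : ℝ) ^ (m + 1)) +
          (β - (⌊β * (b : ℝ) ^ (m + 1)⌋ : ℝ) / (b : ℝ) ^ (m + 1)) := by ring
    rw [e3]
    calc _ ≤ _ := abs_add_le _ _
      _ ≤ (|(p : ℝ) / q| + 1) / (b : ℝ) ^ (m + 1) + 1 / (b : ℝ) ^ (m + 1) := add_le_add h1 h3
      _ = (|(p : ℝ) / q| + 2) / (b : ℝ) ^ (m + 1) := by ring
      _ ≤ _ := by
          apply div_le_div_of_nonneg_right _ hpn.le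
          linarith [abs_nonneg β]

end err

end Pool.Agent.H77.OF
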