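import Pool.Agent.H77.OF.Sum

/-!
The machine that computes `α y + β` for rational `α` and real-time computable `β`.
-/

namespace Pool.Agent.H77.OF

open Pool.Agent.H77.RT Pool.Agent.H77.OL Turing

section trans

variable {b q : ℕ}

/-- the transducer that reads the digits of `β` and the input stack -/
def δ2 (hb : 0 < b) (p : ℤ) (x : Bool × Fin q) (o : Option (Fin b)) (t : Unit → List (Fin b)) :
    (Bool × Fin q) × (Unit → List (Fin b)) × List ((Bool × Fin q) × Fin b × Fin b) :=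
  ((false, nxt p (x.2, ((t ()).head?).getD ⟨0, hb⟩)), fun _ => (t ()).tail,
    [(x, ((t ()).head?).getD ⟨0, hb⟩, o.getD ⟨0, hb⟩)])

/-- the letters written in the first `s` steps -/
def outs (hb : 0 < b) (hq : 0 < q) (p : ℤ) (d : ℕ → Fin b) (w : List (Fin b)) (s : ℕ) :
    List ((Bool × Fin q) × Fin b × Fin b) :=
  (List.range s).map fun i => ((decide (i = 0), rem hq p (fun i => w.getD i ⟨0, hb⟩) i),
    w.getD i ⟨0, hb⟩, d i)

theorem T_run (hb : 0 < b) (hq : 0 < q) (p : ℤ) (d : ℕ → Fin b) (w : List (Fin b)) (s : ℕ) :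
    (tstep 1 (fun _ => true) (δ2 hb p) d)^[s]
      (⟨(true, ⟨0, hq⟩), fun _ => w, 0, []⟩ : TCfg (fun _ : Unit => Fin b) (Bool × Fin q)
        ((Bool × Fin q) × Fin b × Fin b)) =
      ⟨(decide (s = 0), rem hq p (fun i => w.getD i ⟨0, hb⟩) s), fun _ => w.drop s, s,
        outs hb hq p d w s⟩ := by
  induction s with
  | zero => rfl
  | succ s ih =>
    rw [Function.iterate_succ_apply', ih]
    have hhead : ((tops 1 (fun _ : Unit => w.drop s) ()).head?).getD ⟨0, hb⟩ =
        w.getD s ⟨0, hb⟩ := by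
      show (((w.drop s).take 1).head?).getD ⟨0, hb⟩ = _
      rw [List.head?_take, if_neg one_ne_zero, List.head?_drop, List.getD_eq_getElem?_getD]
    have htail : (tops 1 (fun _ : Unit => w.drop s) ()).tail = [] := by
      show ((w.drop s).take 1).tail = []
      rw [← List.drop_one, List.drop_take]; simp
    unfold tstep inp δ2
    simp only [if_true, Option.getD_some]
    rw [hhead, htail]
    congr 1
    · funext _
      unfold repl
      rw [List.nil_append, List.drop_drop]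
    · unfold outs
      rw [List.range_succ, List.map_append]
      rfl

end trans

section comp

variable {K₁ : Type} {Γ₁ : K₁ → Type} {Q : Type} {b q : ℕ} (D₁ L₁ : ℕ)
  (δ₁ : Q → (∀ k, List (Γ₁ k)) → Q × (∀ k, List (Γ₁ k)) × List (Fin b)) (q0 : Q)

/-- the run of the composite machine on the word `w` -/
def crun (hb : 0 < b) (hq : 0 < q) (p : ℤ) (w : List (Fin b)) (τ : ℕ) :
    Cfg (JΓ Γ₁ (fun _ : Unit => Fin b)) (Q × {l : List (Fin b) // l.length ≤ L₁} × (Bool × Fin q))
      ((Bool × Fin q) × Fin b × Fin b) :=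
  (step (D₁ + 1) (cδ D₁ 1 L₁ δ₁ (fun _ => true) (δ2 hb p)))^[τ]
    ⟨(q0, clip L₁ [], (true, ⟨0, hq⟩)), join (fun _ => []) (fun _ => w), []⟩

theorem crun_rel (hb : 0 < b) (hq : 0 < q) (p : ℤ) (w : List (Fin b)) {d : ℕ → Fin b}
    (hbo : ∀ q t, (∀ k, (t k).length ≤ D₁) → ((δ₁ q t).2.2).length ≤ L₁)
    (hd : ∀ t, IsInit (run D₁ δ₁ q0 t).out d) (τ : ℕ) :
    ∃ t s, t + s = τ ∧
      Rel L₁ (crun D₁ L₁ δ₁ q0 hb hq p w τ) (run D₁ δ₁ q0 t)
        (⟨(decide (s = 0), rem hq p (fun i => w.getD i ⟨0, hb⟩) s), fun _ => w.drop s, s,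
        outs hb hq p d w s⟩ : TCfg (fun _ : Unit => Fin b) (Bool × Fin q)
        ((Bool × Fin q) × Fin b × Fin b)) ∧
      (t = 0 ∨ (run D₁ δ₁ q0 (t - 1)).out.length ≤ s) := by
  induction τ with
  | zero =>
    refine ⟨0, 0, rfl, ⟨rfl, ?_, rfl, rfl, rfl, rfl, ?_⟩, Or.inl rfl⟩
    · simp [crun, run_zero, clip]
    · simp [run_zero]
  | succ τ ih =>
    obtain ⟨t, s, hts, h, hprog⟩ := ih
    have hc : crun D₁ L₁ δ₁ q0 hb hq p w (τ + 1) =
        step (D₁ + 1) (cδ D₁ 1 L₁ δ₁ (fun _ => true) (δ2 hb p)) (crun D₁ L₁ δ₁ q0 hb hq p w τ) := by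
      unfold crun; rw [Function.iterate_succ_apply']
    rcases rel_step D₁ 1 L₁ δ₁ (fun _ => true) (δ2 hb p) d hbo h (hd t) with ⟨h', hlen⟩ | h'
    · refine ⟨t + 1, s, by omega, ?_, Or.inr ?_⟩
      · rw [hc, run_succ]; exact h'
      · simp only [Nat.add_sub_cancel]
        exact hlen.le
    · refine ⟨t, s + 1, by omega, ?_, ?_⟩
      · rw [hc]
        rw [← T_run, ← Function.iterate_succ_apply' (tstep 1 (fun _ => true) (δ2 hb p) d), T_run] at h'
        exact h'
      · rcases hprog with h0 | h0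
        · exact Or.inl h0
        · exact Or.inr (h0.trans (Nat.le_succ s))

end comp

end Pool.Agent.H77.OF
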