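import Pool.Agent.H77.OF.Sum2

/-!
The machine that computes `α y + β` for rational `α` and real-time computable `β`.
-/

namespace Pool.Agent.H77.OF

open Pool.Agent.H77.RT Pool.Agent.H77.OL Turing

section comp

variable {K₁ : Type} {Γ₁ : K₁ → Type} {Q : Type} {b q : ℕ} {D₁ L₁ : ℕ}
  {δ₁ : Q → (∀ k, List (Γ₁ k)) → Q × (∀ k, List (Γ₁ k)) × List (Fin b)} {q0 : Q}

theorem crun_succ (hb : 0 < b) (hq : 0 < q) (p : ℤ) (w : List (Fin b)) (τ : ℕ) :
    crun D₁ L₁ δ₁ q0 hb hq p w (τ + 1) =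
      step (D₁ + 1) (cδ D₁ 1 L₁ δ₁ (fun _ => true) (δ2 hb p)) (crun D₁ L₁ δ₁ q0 hb hq p w τ) := by
  unfold crun; rw [Function.iterate_succ_apply']

theorem crun_facts (hb : 0 < b) (hq : 0 < q) (p : ℤ) (w : List (Fin b)) {d : ℕ → Fin b}
    (hbo : ∀ q t, (∀ k, (t k).length ≤ D₁) → ((δ₁ q t).2.2).length ≤ L₁)
    (hd : ∀ t, IsInit (run D₁ δ₁ q0 t).out d) {c : ℕ}
    (hc : ∀ n, n ≤ (run D₁ δ₁ q0 (c * (n + 1))).out.length) (τ : ℕ) :
    (crun D₁ L₁ δ₁ q0 hb hq p w τ).out =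
        outs hb hq p d w (crun D₁ L₁ δ₁ q0 hb hq p w τ).out.length ∧
      (crun D₁ L₁ δ₁ q0 hb hq p w τ).S (Sum.inr ()) =
        w.drop (crun D₁ L₁ δ₁ q0 hb hq p w τ).out.length ∧
      τ ≤ c * ((crun D₁ L₁ δ₁ q0 hb hq p w τ).out.length + 2) +
        (crun D₁ L₁ δ₁ q0 hb hq p w τ).out.length := by
  obtain ⟨t, s, hts, h, hprog⟩ := crun_rel D₁ L₁ δ₁ q0 hb hq p w hbo hd τ
  have h1 := h.hout
  simp only at h1
  have h2 : (crun D₁ L₁ δ₁ q0 hb hq p w τ).out.length = s := by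
    rw [h1]; simp [outs]
  rw [h2]
  refine ⟨h1, ?_, ?_⟩
  · exact congrFun h.hSr ()
  · have ht : t ≤ c * (s + 2) := by
      rcases hprog with h0 | h0
      · omega
      · by_contra hcon
        push Not at hcon
        have h3 : c * ((s + 1) + 1) ≤ t - 1 := by
          have : c * ((s + 1) + 1) = c * (s + 2) := by ring
          omega
        have h4 := hc (s + 1)
        have h5 := out_length_mono D₁ δ₁ q0 h3
        omega
    omega

theorem crun_out_succ (hb : 0 < b) (hq : 0 < q) (p : ℤ) (w : List (Fin b)) (τ : ℕ) :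
    (crun D₁ L₁ δ₁ q0 hb hq p w τ).out <+: (crun D₁ L₁ δ₁ q0 hb hq p w (τ + 1)).out ∧
      (crun D₁ L₁ δ₁ q0 hb hq p w (τ + 1)).out.length ≤
        (crun D₁ L₁ δ₁ q0 hb hq p w τ).out.length + 1 := by
  rw [crun_succ]
  generalize crun D₁ L₁ δ₁ q0 hb hq p w τ = C
  refine ⟨List.prefix_append _ _, ?_⟩
  simp only [step, List.length_append]
  apply Nat.add_le_add_left
  unfold cδ
  by_cases hrun : (fun _ => true : Bool × Fin q → Bool) C.q.2.2 = true ∧ C.q.2.1.1 = []
  · rw [if_pos hrun]; exact Nat.zero_le _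
  · rw [if_neg hrun]; exact le_rfl

theorem crun_out_mono (hb : 0 < b) (hq : 0 < q) (p : ℤ) (w : List (Fin b)) {τ τ' : ℕ} (h : τ ≤ τ') :
    (crun D₁ L₁ δ₁ q0 hb hq p w τ).out <+: (crun D₁ L₁ δ₁ q0 hb hq p w τ').out := by
  induction τ', h using Nat.le_induction with
  | base => exact List.prefix_rfl
  | succ τ' _ ih => exact ih.trans (crun_out_succ hb hq p w τ').1

theorem crun_time (hb : 0 < b) (hq : 0 < q) (p : ℤ) (w : List (Fin b)) {d : ℕ → Fin b}
    (hbo : ∀ q t, (∀ k, (t k).length ≤ D₁) → ((δ₁ q t).2.2).length ≤ L₁)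
    (hd : ∀ t, IsInit (run D₁ δ₁ q0 t).out d) {c : ℕ}
    (hc : ∀ n, n ≤ (run D₁ δ₁ q0 (c * (n + 1))).out.length) (n : ℕ) :
    ∃ τ ≤ (2 * c + 1) * (n + 1), (crun D₁ L₁ δ₁ q0 hb hq p w τ).out.length = n := by
  classical
  have hex : ∃ τ, n ≤ (crun D₁ L₁ δ₁ q0 hb hq p w τ).out.length := by
    refine ⟨c * (n + 2) + n, ?_⟩
    by_contra hcon
    push Not at hcon
    have h1 := (crun_facts hb hq p w hbo hd hc (c * (n + 2) + n)).2.2
    set s := (crun D₁ L₁ δ₁ q0 hb hq p w (c * (n + 2) + n)).out.length with hs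
    have h2 : c * (s + 2) ≤ c * (n + 2) := Nat.mul_le_mul_left _ (by omega)
    omega
  obtain ⟨τ, h1, h2⟩ : ∃ τ, n ≤ (crun D₁ L₁ δ₁ q0 hb hq p w τ).out.length ∧
      ∀ τ' < τ, (crun D₁ L₁ δ₁ q0 hb hq p w τ').out.length < n :=
    ⟨Nat.find hex, Nat.find_spec hex, fun τ' h => by
      have := Nat.find_min hex h
      omega⟩
  have h3 : (crun D₁ L₁ δ₁ q0 hb hq p w τ).out.length = n := by
    rcases Nat.eq_zero_or_pos τ with h0 | h0
    · subst h0
      have : (crun D₁ L₁ δ₁ q0 hb hq p w 0).out.length = 0 := rfl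
      omega
    · obtain ⟨τ₀, rfl⟩ : ∃ τ₀, τ = τ₀ + 1 := ⟨τ - 1, by omega⟩
      have h4 := (crun_out_succ (D₁ := D₁) (L₁ := L₁) (δ₁ := δ₁) (q0 := q0) hb hq p w τ₀).2
      have h5 := h2 τ₀ (Nat.lt_succ_self _)
      omega
  refine ⟨τ, ?_, h3⟩
  have h4 := (crun_facts hb hq p w hbo hd hc τ).2.2
  rw [h3] at h4
  nlinarith

end comp

theorem exists_sum {b q : ℕ} (hb : 2 ≤ b) (hq : 0 < q) (p : ℤ) (β : ℝ) (hβ : Gen (dig b β)) :
    ∃ (K : Type) (_ : Fintype K) (_ : DecidableEq K) (Γ : K → Type) (_ : ∀ k, Fintype (Γ k))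
      (Λ : Type) (_ : Fintype Λ) (σ : Type) (_ : Fintype σ) (M : Λ → TM2.Stmt Γ Λ σ) (l₀ : Λ) (v₀ : σ)
      (inp out : K) (_ : inp ≠ out) (rd : Fin b → Γ inp) (wr : Γ out → ℤ) (E : ℝ) (c : ℕ),
      ∀ w, RawComp M l₀ v₀ inp out rd wr (fun y => (p : ℝ) / q * y + β) E (fun n => c * (n + 1))
        (fun _ => 0) w := by
  classical
  have hb0 : 0 < b := by omega
  have h1 : Gen (du hb β) := by
    have := hβ.map (fun a : ℕ => (⟨a % b, Nat.mod_lt _ (by omega)⟩ : Fin b))
    convert this using 1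
    funext n
    unfold du
    simp only [Function.comp_apply]
    congr 1
    rw [Nat.mod_eq_of_lt (dig_lt hb β n)]
  obtain ⟨K₁, Γ₁, Q, D₁, L₁, δ₁, q0, c, hK₁, hΓ₁, hQ, hbo₁, hbp₁, hinit, hc⟩ := h1
  have _ : Fintype K₁ := Fintype.ofFinite K₁
  have _ : ∀ k, Fintype (Γ₁ k) := fun k => Fintype.ofFinite _
  have hfinL : Finite {l : List (Fin b) // l.length ≤ L₁} :=
    (List.finite_length_le (Fin b) L₁).to_subtype
  have hfinΓ : ∀ k : K₁ ⊕ Unit, Finite (JΓ Γ₁ (fun _ : Unit => Fin b) k) := by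
    rintro (k | k)
    · exact hΓ₁ k
    · show Finite (Fin b); infer_instance
  have hfin : ∀ k : K₁ ⊕ Unit, Finite {l : List (JΓ Γ₁ (fun _ : Unit => Fin b) k) //
      l.length ≤ D₁ + 1} := fun k => (List.finite_length_le _ (D₁ + 1)).to_subtype
  have _ : Fintype (St (JΓ Γ₁ (fun _ : Unit => Fin b))
      (Q × {l : List (Fin b) // l.length ≤ L₁} × (Bool × Fin q)) (D₁ + 1)) := Fintype.ofFinite _
  obtain ⟨L, hL⟩ : ∃ L, L = L₁ + 1 + D₁ + 1 := ⟨_, rfl⟩
  set δ := cδ D₁ 1 L₁ δ₁ (fun _ => true) (δ2 (q := q) hb0 p) with hδ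
  have hbo : ∀ x t, (∀ k, (t k).length ≤ D₁ + 1) → ((δ x t).2.2).length ≤ L := by
    intro x t ht
    rw [hδ]
    unfold cδ
    by_cases hrun : (fun _ => true : Bool × Fin q → Bool) x.2.2 = true ∧ x.2.1.1 = []
    · rw [if_pos hrun]; exact Nat.zero_le _
    · rw [if_neg hrun]
      show (1 : ℕ) ≤ L
      omega
  have hbp : ∀ x t, (∀ k, (t k).length ≤ D₁ + 1) → ∀ k, ((δ x t).2.1 k).length ≤ L := by
    intro x t ht k
    rw [hδ]
    unfold cδ
    have hl1 : ∀ k : K₁, ((t (Sum.inl k)).drop D₁).length ≤ D₁ + 1 := fun k => by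
      rw [List.length_drop]; have := ht (Sum.inl k); omega
    by_cases hrun : (fun _ => true : Bool × Fin q → Bool) x.2.2 = true ∧ x.2.1.1 = []
    · rw [if_pos hrun]
      rcases k with k | k
      · have h1 := hbp₁ x.1 (tops D₁ (lft t)) (tops_length _ _) k
        have h2 := hl1 k
        show (_ ++ _ : List _).length ≤ _
        rw [List.length_append]
        unfold lft at *
        omega
      · have h2 := ht (Sum.inr k)
        show (t (Sum.inr k)).length ≤ _
        omega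
    · rw [if_neg hrun]
      rcases k with k | k
      · have h2 := ht (Sum.inl k)
        show (t (Sum.inl k)).length ≤ _
        omega
      · have h2 := ht (Sum.inr k)
        show ((tops 1 (rgt t) ()).tail ++ (t (Sum.inr k)).drop 1 : List _).length ≤ _
        rw [List.length_append, List.length_tail, List.length_drop]
        have h3 : (tops 1 (rgt t) ()).length ≤ 1 := tops_length _ _ _
        omega
  obtain ⟨a0, ha0⟩ : ∃ a0 : (Bool × Fin q) × Fin b × Fin b, a0 = ((true, ⟨0, hq⟩), ⟨0, hb0⟩, ⟨0, hb0⟩) :=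
    ⟨_, rfl⟩
  obtain ⟨ks, hks⟩ : ∃ ks : List (K₁ ⊕ Unit), ks = Finset.univ.toList := ⟨_, rfl⟩
  have hnd : ks.Nodup := by rw [hks]; exact Finset.nodup_toList _
  have hall : ∀ k, k ∈ ks := fun k => by rw [hks]; simp
  set M : Unit → TM2.Stmt (OΓ (JΓ Γ₁ (fun _ : Unit => Fin b)) ((Bool × Fin q) × Fin b × Fin b)) Unit
    (St (JΓ Γ₁ (fun _ : Unit => Fin b))
      (Q × {l : List (Fin b) // l.length ≤ L₁} × (Bool × Fin q)) (D₁ + 1)) :=
    fun _ => theStmt a0 δ L ks with hM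
  have key : ∀ (w : List (Fin b)) (τ : ℕ), cfg M () ((q0, clip L₁ [], (true, ⟨0, hq⟩)),
      fun _ => clip (D₁ + 1) []) (emb (join (fun _ => []) (fun _ => w)) []) τ =
      some ⟨some (), ((crun D₁ L₁ δ₁ q0 hb0 hq p w τ).q, fun _ => clip (D₁ + 1) []),
        emb (crun D₁ L₁ δ₁ q0 hb0 hq p w τ).S (crun D₁ L₁ δ₁ q0 hb0 hq p w τ).out.reverse⟩ := by
    intro w τ
    induction τ with
    | zero => rfl
    | succ τ ih =>
      rw [cfg_succ, ih, Option.bind_some, TM2.step, crun_succ]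
      rw [hM]
      simp only
      rw [theStmt_spec a0 δ hnd hall hbo hbp]
      simp only [step, List.reverse_append]
      rfl
  have hstart : ∀ w : List (Fin b), (Function.update (fun _ => []) (some (Sum.inr ()))
      (w.map (fun y => (some y : Option (Fin b)))) :
      ∀ k, List (OΓ (JΓ Γ₁ (fun _ : Unit => Fin b)) ((Bool × Fin q) × Fin b × Fin b) k)) =
      emb (join (fun _ => []) (fun _ => w)) [] := by
    intro w
    funext k
    rcases k with _ | (k | k)
    · rw [Function.update_of_ne (by simp)]; rfl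
    · rw [Function.update_of_ne (by simp)]; rfl
    · rw [Function.update_self]; rfl
  refine ⟨Option (K₁ ⊕ Unit), inferInstance, inferInstance,
    OΓ (JΓ Γ₁ (fun _ : Unit => Fin b)) ((Bool × Fin q) × Fin b × Fin b), ?_, Unit, inferInstance, _,
    inferInstance, M, (), ((q0, clip L₁ [], (true, ⟨0, hq⟩)), fun _ => clip (D₁ + 1) []),
    some (Sum.inr ()), none, by simp, fun y => (some y : Option (Fin b)),
    fun x : (Bool × Fin q) × Fin b × Fin b => wrP p (x.1.2, x.2.1) + ((x.2.2 : ℕ) : ℤ) +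
      (if x.1.1 then b * ⌊β⌋ else 0), |(p : ℝ) / q| + |β| + 2, 2 * c + 1, ?_⟩
  · intro k
    rcases k with _ | k
    · show Fintype ((Bool × Fin q) × Fin b × Fin b); infer_instance
    · show Fintype (Option (JΓ Γ₁ (fun _ : Unit => Fin b) k))
      have := hfinΓ k
      exact Fintype.ofFinite _
  · intro w
    refine ⟨?_, ?_, ?_⟩
    · intro t t' htt C C' hC hC'
      rw [hstart] at hC hC'
      rw [key] at hC hC'
      rw [← Option.some.inj hC, ← Option.some.inj hC']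
      have f1 := (crun_facts hb0 hq p w hbo₁ hinit hc t).2.1
      have f2 := (crun_facts hb0 hq p w hbo₁ hinit hc t').2.1
      show (((crun D₁ L₁ δ₁ q0 hb0 hq p w t').S (Sum.inr ())).map some) <:+
        (((crun D₁ L₁ δ₁ q0 hb0 hq p w t).S (Sum.inr ())).map some)
      rw [f1, f2]
      apply List.IsSuffix.map
      have h3 := (crun_out_mono (D₁ := D₁) (L₁ := L₁) (δ₁ := δ₁) (q0 := q0) hb0 hq p w htt).length_le
      obtain ⟨s, hs⟩ : ∃ s, (crun D₁ L₁ δ₁ q0 hb0 hq p w t').out.length =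
        (crun D₁ L₁ δ₁ q0 hb0 hq p w t).out.length + s := ⟨_, (Nat.add_sub_cancel' h3).symm⟩
      rw [hs, ← List.drop_drop]
      exact List.drop_suffix _ _
    · intro t t' htt C C' hC hC'
      rw [hstart] at hC hC'
      rw [key] at hC hC'
      rw [← Option.some.inj hC, ← Option.some.inj hC']
      show (crun D₁ L₁ δ₁ q0 hb0 hq p w t).out.reverse <:+
        (crun D₁ L₁ δ₁ q0 hb0 hq p w t').out.reverse
      rw [List.reverse_suffix]
      exact crun_out_mono hb0 hq p w htt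
    · intro n hn
      rw [Nat.add_zero] at hn
      obtain ⟨τ, hτ, hlen⟩ := crun_time hb0 hq p w hbo₁ hinit hc n
      obtain ⟨f1, f2, -⟩ := crun_facts hb0 hq p w hbo₁ hinit hc τ
      rw [hlen] at f1 f2
      refine ⟨τ, hτ, _, by rw [hstart]; exact key w τ, ?_, ?_, ?_⟩
      · show w.length ≤ (((crun D₁ L₁ δ₁ q0 hb0 hq p w τ).S (Sum.inr ())).map some).length + (n + 0)
        rw [f2, List.length_map, List.length_drop]; omega
      · show n ≤ (crun D₁ L₁ δ₁ q0 hb0 hq p w τ).out.reverse.length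
        rw [List.length_reverse, hlen]
      · show |((p : ℝ) / q * vl b (w.map fun a : Fin b => ((a : ℕ) : ℤ)) + β) -
          vl b (((crun D₁ L₁ δ₁ q0 hb0 hq p w τ).out.reverse.reverse.take n).map
          (fun x : (Bool × Fin q) × Fin b × Fin b => wrP p (x.1.2, x.2.1) + ((x.2.2 : ℕ) : ℤ) +
          (if x.1.1 then b * ⌊β⌋ else 0)))| ≤ _
        rw [List.reverse_reverse, List.take_of_length_le hlen.le]
        have e1 : vl b ((crun D₁ L₁ δ₁ q0 hb0 hq p w τ).out.map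
            (fun x : (Bool × Fin q) × Fin b × Fin b => wrP p (x.1.2, x.2.1) + ((x.2.2 : ℕ) : ℤ) +
              (if x.1.1 then b * ⌊β⌋ else 0))) =
            (hor b (fun i => wrP p (rem hq p (fun i => w.getD i ⟨0, hb0⟩) i, w.getD i ⟨0, hb0⟩) +
              (dig b β i : ℤ) + (if i = 0 then b * ⌊β⌋ else 0)) n : ℝ) / (b : ℝ) ^ n := by
          apply vl_eq hb0
          · rw [List.length_map, hlen]
          · intro i hi
            rw [f1]
            unfold outs
            rw [List.map_map, List.getD_eq_getElem?_getD, List.getElem?_map,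
              List.getElem?_range hi]
            simp only [Option.map_some, Option.getD_some, Function.comp_apply, decide_eq_true_eq]
            rfl
        rw [e1]
        exact sum_err hb hq p β w hn (fun i _ => rfl)

end Pool.Agent.H77.OF
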