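import Pool.Agent.H77.OF.Engine3
import Pool.Agent.H77.RT.Base

/-!
The value at `0` of a function computed in real time is generated in real time.
-/

namespace Pool.Agent.H77.OF

open Pool.Agent.H77.RT Pool.Agent.H77.OL Turing

section zero

variable {K : Type} [DecidableEq K] {Γ : K → Type} {Q : Type} {b : ℕ} (M : Sys K Γ Q b)

/-- transition function of the machine that simulates the run on an infinite word of zeros -/
def zδ (z : Γ M.inp) (q : Q) (t : ∀ k, List (Γ k)) : Q × (∀ k, List (Γ k)) × List ℤ :=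
  ((M.F q (Function.update t M.inp (List.replicate M.D z))).1,
    Function.update (M.F q (Function.update t M.inp (List.replicate M.D z))).2 M.inp [],
    ((((M.F q (Function.update t M.inp (List.replicate M.D z))).2 M.out).take
      (((M.F q (Function.update t M.inp (List.replicate M.D z))).2 M.out).length -
        (t M.out).length)).map M.wr).reverse)

/-- the simulation invariant -/
structure ZInv (z : Γ M.inp) {N : ℕ} (w : Fin N → Fin b) (t : ℕ) : Prop where
  hq : (run M.D (zδ M z) M.q₀ t).q = M.q w t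
  hS : ∀ k, k ≠ M.inp → (run M.D (zδ M z) M.q₀ t).S k = M.S w t k
  hi : (run M.D (zδ M z) M.q₀ t).S M.inp = []
  hz : ∃ m, M.S w t M.inp = List.replicate m z ∧ N ≤ m + M.D * t
  ho : (run M.D (zδ M z) M.q₀ t).out = ((M.S w t M.out).map M.wr).reverse

theorem zinv {N : ℕ} (z : Fin b) (t : ℕ) (hN : M.D * (t + 1) ≤ N)
    (hM : M.Mono (fun _ : Fin N => z) t) : ZInv M (M.rd z) (fun _ : Fin N => z) t := by
  induction t with
  | zero =>
    refine ⟨rfl, fun k hk => ?_, rfl, ⟨N, ?_, by omega⟩, ?_⟩
    · rw [M.S_zero hk]; rfl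
    · rw [M.S_zero_inp]
      unfold Sys.word
      rw [List.ofFn_const]
    · rw [M.S_zero M.ne]; rfl
  | succ t ih =>
    have e0 : M.D * (t + 1 + 1) = M.D * (t + 1) + M.D := by ring
    have e00 : M.D * (t + 1) = M.D * t + M.D := by ring
    obtain ⟨iq, iS, ii, ⟨m, im, imN⟩, io⟩ := ih (by omega) (hM.le (Nat.le_succ t))
    have tr := M.traj (fun _ : Fin N => z) (t + 1)
    have hm : M.D ≤ m := by omega
    have hstep : run M.D (zδ M (M.rd z)) M.q₀ (t + 1) =
        step M.D (zδ M (M.rd z)) (run M.D (zδ M (M.rd z)) M.q₀ t) := run_succ _ _ _ _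
    generalize run M.D (zδ M (M.rd z)) M.q₀ t = R at iq iS ii io hstep
    have htop : Function.update (tops M.D R.S) M.inp
        (List.replicate M.D (M.rd z)) = tops M.D (M.S (fun _ : Fin N => z) t) := by
      funext k
      by_cases hk : k = M.inp
      · subst hk
        rw [Function.update_self]
        simp only [tops]
        rw [im, List.take_replicate, min_eq_left hm]
      · rw [Function.update_of_ne hk]
        simp only [tops]
        rw [iS k hk]
    have hδ : zδ M (M.rd z) R.q
        (tops M.D R.S) =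
        ((M.F (M.q (fun _ : Fin N => z) t) (tops M.D (M.S (fun _ : Fin N => z) t))).1,
          Function.update (M.F (M.q (fun _ : Fin N => z) t)
            (tops M.D (M.S (fun _ : Fin N => z) t))).2 M.inp [],
          ((((M.F (M.q (fun _ : Fin N => z) t) (tops M.D (M.S (fun _ : Fin N => z) t))).2 M.out).take
            (((M.F (M.q (fun _ : Fin N => z) t) (tops M.D (M.S (fun _ : Fin N => z) t))).2
              M.out).length - (tops M.D (M.S (fun _ : Fin N => z) t) M.out).length)).map
                M.wr).reverse) := by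
      unfold zδ
      rw [htop, iq]
      have : tops M.D R.S M.out =
          tops M.D (M.S (fun _ : Fin N => z) t) M.out := by
        simp only [tops]; rw [iS _ M.ne]
      rw [this]
    refine ⟨?_, ?_, ?_, ?_, ?_⟩
    · rw [hstep, step, hδ, tr.hq t (Nat.lt_succ_self t)]
    · intro k hk
      rw [hstep, step, hδ, tr.hS t (Nat.lt_succ_self t) k]
      simp only
      rw [Function.update_of_ne hk, iS k hk]
    · rw [hstep, step, hδ]
      simp only
      rw [Function.update_self, ii]
      simp [repl]
    · obtain ⟨u, hu⟩ := hM.hin t (t + 1) (Nat.le_succ t) le_rfl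
      have h1 := M.h_drop (fun _ : Fin N => z) M.inp t
      refine ⟨(M.S (fun _ : Fin N => z) (t + 1) M.inp).length, ?_, ?_⟩
      · rw [im] at hu
        rw [List.eq_replicate_iff]
        refine ⟨rfl, fun x hx => ?_⟩
        have : x ∈ List.replicate m (M.rd z) := by
          rw [← hu]; exact List.mem_append_right _ hx
        exact List.eq_of_mem_replicate this
      · unfold Sys.h at h1
        rw [im, List.length_replicate] at h1
        omega
    · obtain ⟨u, hu⟩ := hM.hout t (t + 1) (Nat.le_succ t) le_rfl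
      rw [hstep, step, hδ]
      simp only
      rw [io]
      have hSo := tr.hS t (Nat.lt_succ_self t) M.out
      rw [hSo] at hu
      unfold repl at hu
      have h5 : (M.F (M.q (fun _ : Fin N => z) t) (tops M.D (M.S (fun _ : Fin N => z) t))).2 M.out =
          u ++ tops M.D (M.S (fun _ : Fin N => z) t) M.out := by
        have h6 : u ++ M.S (fun _ : Fin N => z) t M.out =
            (u ++ tops M.D (M.S (fun _ : Fin N => z) t) M.out) ++
              (M.S (fun _ : Fin N => z) t M.out).drop M.D := by
          rw [List.append_assoc]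
          congr 1
          exact (List.take_append_drop _ _).symm
        rw [h6] at hu
        exact (List.append_cancel_right hu).symm
      rw [h5, List.length_append, Nat.add_sub_cancel, List.take_left, hSo]
      unfold repl
      rw [h5, List.append_assoc]
      have h7 : tops M.D (M.S (fun _ : Fin N => z) t) M.out ++
          (M.S (fun _ : Fin N => z) t M.out).drop M.D = M.S (fun _ : Fin N => z) t M.out :=
        List.take_append_drop _ _
      rw [h7, List.map_append, List.reverse_append]

theorem upd_len {z : Γ M.inp} {t : ∀ k, List (Γ k)} (ht : ∀ k, (t k).length ≤ M.D) (k : K) :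
    (Function.update t M.inp (List.replicate M.D z) k).length ≤ M.D := by
  by_cases hk : k = M.inp
  · subst hk; rw [Function.update_self, List.length_replicate]
  · rw [Function.update_of_ne hk]; exact ht k

theorem zδ_out (z : Γ M.inp) (q : Q) (t : ∀ k, List (Γ k)) (ht : ∀ k, (t k).length ≤ M.D) :
    ((zδ M z q t).2.2).length ≤ M.D + M.P := by
  have h1 := M.hP q _ (upd_len M (z := z) ht) M.out
  rw [Function.update_of_ne M.ne] at h1
  have h2 := ht M.out
  unfold zδ
  simp only [List.length_reverse, List.length_map, List.length_take]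
  omega

theorem zδ_stk (z : Γ M.inp) (q : Q) (t : ∀ k, List (Γ k)) (ht : ∀ k, (t k).length ≤ M.D) (k : K) :
    ((zδ M z q t).2.1 k).length ≤ M.D + M.P := by
  have h1 := M.hP q _ (upd_len M (z := z) ht) k
  have h2 := upd_len M (z := z) ht k
  unfold zδ
  simp only
  by_cases hk : k = M.inp
  · subst hk; rw [Function.update_self]; exact Nat.zero_le _
  · rw [Function.update_of_ne hk]
    omega

end zero

theorem h_out_le {K : Type} [DecidableEq K] {Γ : K → Type} {Q : Type} {b : ℕ} (M : Sys K Γ Q b) {N : ℕ}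
    (w : Fin N → Fin b) (t : ℕ) : M.h w M.out t ≤ M.P * t := by
  induction t with
  | zero => unfold Sys.h; rw [M.S_zero M.ne]; simp
  | succ t ih =>
    have := M.h_succ w M.out t
    rw [Nat.mul_succ]; omega

theorem hor_zero (b n : ℕ) : hor b (fun _ => 0) n = 0 := by
  induction n with
  | zero => rfl
  | succ n ih =>
    show (b : ℤ) * hor b (fun _ => 0) n + 0 = 0
    rw [ih]; simp

theorem hor_eq_acc (b : ℕ) (a : ℕ → ℤ) (n : ℕ) : acc b a 0 n = hor b a n := by
  induction n with
  | zero => rfl
  | succ n ih =>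
    show (b : ℤ) * acc b a 0 n + a n = b * hor b a n + a n
    rw [ih]

theorem sd_zero {K : Type} [Fintype K] [DecidableEq K] {Γ : K → Type} [∀ k, Fintype (Γ k)] {Λ : Type}
    [Fintype Λ] {σ : Type} [Fintype σ] {b : ℕ} (hb : 2 ≤ b) (M : Λ → TM2.Stmt Γ Λ σ) (l₀ : Λ) (v₀ : σ)
    {inp out : K} (ne : out ≠ inp) (rd : Fin b → Γ inp) (wr : Γ out → ℤ) (f : ℝ → ℝ) (E : ℝ) (c : ℕ)
    (D : ℕ → ℕ) (hall : ∀ w, RawComp M l₀ v₀ inp out rd wr f E (fun n => c * (n + 1)) D w) :
    SD b (f 0) := by
  classical
  have hb0 : 0 < b := by omega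
  obtain ⟨z, hz⟩ : ∃ z : Fin b, z = ⟨0, hb0⟩ := ⟨_, rfl⟩
  set S := toSys M l₀ v₀ inp out ne rd wr with hS
  -- the machine never halts
  have alive : ∀ t N, (S.P * t + 1) + D (S.P * t + 1) ≤ N → ∃ C : TM2.Cfg Γ Λ σ,
      cfg M l₀ v₀ (Function.update (fun _ => []) inp ((List.ofFn (fun _ : Fin N => z)).map rd)) t =
        some C := by
    intro t N hN
    obtain ⟨t', -, C', hC', -, h1, -⟩ := (hall (List.ofFn (fun _ : Fin N => z))).works (S.P * t + 1)
      (by rw [List.length_ofFn]; exact hN)
    have h2 := (toSys_run M l₀ v₀ inp out ne rd wr (fun _ : Fin N => z) t' C' hC').2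
    have h3 := h_out_le S (fun _ : Fin N => z) t'
    have h4 : S.h (fun _ : Fin N => z) S.out t' = (C'.stk out).length := by
      unfold Sys.h; rw [h2]; rfl
    have h5 : t ≤ t' := by
      by_contra hcon
      push Not at hcon
      have := Nat.mul_le_mul_left S.P hcon.le
      omega
    exact cfg_some_of_le M l₀ v₀ h5 hC'
  have mono : ∀ t N, (S.P * t + 1) + D (S.P * t + 1) ≤ N → S.Mono (fun _ : Fin N => z) t := by
    intro t N hN
    obtain ⟨C₀, hC₀⟩ := alive t N hN
    refine ⟨?_, ?_⟩
    · intro s s' hs hs'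
      obtain ⟨C', hC'⟩ := cfg_some_of_le M l₀ v₀ hs' hC₀
      obtain ⟨C, hC⟩ := cfg_some_of_le M l₀ v₀ hs hC'
      rw [(toSys_run M l₀ v₀ inp out ne rd wr _ s C hC).2,
        (toSys_run M l₀ v₀ inp out ne rd wr _ s' C' hC').2]
      exact (hall _).reads s s' hs C C' hC hC'
    · intro s s' hs hs'
      obtain ⟨C', hC'⟩ := cfg_some_of_le M l₀ v₀ hs' hC₀
      obtain ⟨C, hC⟩ := cfg_some_of_le M l₀ v₀ hs hC'
      rw [(toSys_run M l₀ v₀ inp out ne rd wr _ s C hC).2,
        (toSys_run M l₀ v₀ inp out ne rd wr _ s' C' hC').2]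
      exact (hall _).writes s s' hs C C' hC hC'
  obtain ⟨R, hR⟩ : ∃ R, R = run S.D (zδ S (S.rd z)) S.q₀ := ⟨_, rfl⟩
  -- facts about `n` digits
  have main : ∀ n, ∃ t ≤ c * (n + 1), ∃ l : List (Γ out), n ≤ l.length ∧
      (R t).out = (l.map wr).reverse ∧ |f 0 - hor b (digs wr l) n / (b : ℝ) ^ n| ≤ E / (b : ℝ) ^ n := by
    intro n
    obtain ⟨N, hN⟩ : ∃ N, N = (n + D n) + (Finset.range (c * (n + 1) + 1)).sup
      (fun t => (S.P * t + 1) + D (S.P * t + 1)) + S.D * (c * (n + 1) + 1) := ⟨_, rfl⟩
    obtain ⟨t, ht, C, hC, -, h1, h2⟩ := (hall (List.ofFn (fun _ : Fin N => z))).works n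
      (by rw [List.length_ofFn]; omega)
    have h3 : (S.P * t + 1) + D (S.P * t + 1) ≤ N := by
      have := Finset.le_sup (f := fun t => (S.P * t + 1) + D (S.P * t + 1))
        (Finset.mem_range.2 (Nat.lt_succ_of_le ht))
      simp only [Nat.succ_eq_add_one] at this
      omega
    have h4 : S.D * (t + 1) ≤ N := by
      have := Nat.mul_le_mul_left S.D (Nat.succ_le_succ ht)
      simp only [Nat.succ_eq_add_one] at this
      omega
    have hinv := zinv S z t h4 (mono t N h3)
    have h5 := (toSys_run M l₀ v₀ inp out ne rd wr (fun _ : Fin N => z) t C hC).2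
    refine ⟨t, ht, C.stk out, h1, ?_, ?_⟩
    · rw [hR, hinv.ho, h5]; rfl
    · rw [vl_word hb0, vl_digs hb0 wr _ h1] at h2
      have h6 : val b (fun _ : Fin N => z) = 0 := by
        unfold val
        rw [hor_congr (d := dg (fun _ : Fin N => z)) (d' := fun _ => 0) (n := N) (by
          intro i hi
          unfold dg
          rw [dif_pos hi, hz]; rfl), hor_zero]
        simp
      rw [h6] at h2
      exact h2
  have hlen : ∀ n, n ≤ (R (c * (n + 1))).out.length := by
    intro n
    obtain ⟨t, ht, l, hl, ho, -⟩ := main n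
    have h1 : (R t).out.length ≤ (R (c * (n + 1))).out.length := by
      rw [hR]; exact out_length_mono _ _ _ ht
    rw [ho, List.length_reverse, List.length_map] at h1
    omega
  obtain ⟨a, ha⟩ : ∃ a : ℕ → ℤ, ∀ i, a i = ((R (c * (i + 1 + 1))).out[i]?).getD 0 := ⟨_, fun _ => rfl⟩
  have hpre : ∀ t t', t ≤ t' → (R t).out <+: (R t').out := by
    intro t t' h; rw [hR]; exact out_prefix _ _ _ h
  have hinit : ∀ t, IsInit (R t).out a := by
    intro t i hi
    have h1 : i < (R (c * (i + 1 + 1))).out.length := by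
      have := hlen (i + 1); omega
    rw [ha, List.getElem?_eq_getElem h1, Option.getD_some]
    rcases le_total t (c * (i + 1 + 1)) with h | h
    · exact (hpre _ _ h).getElem hi
    · exact ((hpre _ _ h).getElem h1).symm
  obtain ⟨B, hB⟩ : ∃ B : ℤ, ∀ x : Γ out, |wr x| ≤ B := by
    refine ⟨∑ x, |wr x|, fun x => ?_⟩
    exact Finset.single_le_sum (f := fun x => |wr x|) (fun _ _ => abs_nonneg _) (Finset.mem_univ x)
  have hdig : ∀ n, ∀ l : List (Γ out), ∀ t, (R t).out = (l.map wr).reverse → n ≤ l.length →
      ∀ i < n, digs wr l i = a i := by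
    intro n l t ho hl i hi
    have h1 : i < (R t).out.length := by rw [ho, List.length_reverse, List.length_map]; omega
    rw [← hinit t i h1]
    unfold digs
    have h2 : (R t).out[i]? = (l.reverse[i]?).map wr := by
      rw [ho, ← List.map_reverse, List.getElem?_map]
    rw [← h2, List.getElem?_eq_getElem h1, Option.getD_some]
  have hgen : Gen a := by
    refine ⟨K, Γ, Option Λ × σ, S.D, S.D + S.P, zδ S (S.rd z), S.q₀, c, inferInstance,
      fun k => inferInstance, inferInstance, ?_, ?_, ?_, ?_⟩
    · exact fun q t ht => zδ_out S _ q t ht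
    · exact fun q t ht k => zδ_stk S _ q t ht k
    · intro t
      have := hinit t
      rw [hR] at this
      exact this
    · intro n
      have := hlen n
      rw [hR] at this
      exact this
  refine ⟨a, B, 0, 1, E, hgen, ?_, one_pos, ?_⟩
  · intro n
    obtain ⟨t, ht, l, hl, ho, -⟩ := main (n + 1)
    rw [← hdig (n + 1) l t ho hl n (Nat.lt_succ_self n)]
    unfold digs
    rw [List.getElem?_eq_getElem (by rw [List.length_reverse]; omega)]
    exact hB _
  · intro n
    obtain ⟨t, ht, l, hl, ho, herr⟩ := main n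
    rw [hor_congr (hdig n l t ho hl)] at herr
    rw [hor_eq_acc]
    have hbR : (0 : ℝ) < (b : ℝ) ^ n := by positivity
    rw [Nat.cast_one, one_mul]
    have h1 : |f 0 - (hor b a n : ℝ) / (b : ℝ) ^ n| * (b : ℝ) ^ n ≤ E := by
      rw [le_div_iff₀ hbR] at herr
      exact herr
    rw [← abs_of_pos hbR, ← abs_mul, abs_of_pos hbR, sub_mul, div_mul_cancel₀ _ hbR.ne'] at h1
    exact h1

end Pool.Agent.H77.OF
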